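import Pool.Agent.H2.MM.Ext
import Pool.Agent.H2.VC.Code

set_option autoImplicit false

/-!
The code of a linear order with staircase relations: a linear order with an action of the free
group.
-/

namespace Pool.Agent.H2.MM

open Pool.Agent.Y560.TH (XB HD IsoB HDr Modl)
open Pool.Agent.H2.VC (ZB IsoZ Pe enp enp_inj enp_mem enp_sur isoZ_symm isoZ_trans)

/-- the order -/
def Lz (x : ZB) (m n : ℕ) : Prop := x.1 0 m n = true

/-- the staircase relations -/
def Rz (x : ZB) (j m n : ℕ) : Prop := x.1 (j + 1) m n = true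

/-- the class of structures -/
def MZ (x : ZB) : Prop := Mono (Lz x) (Rz x)

/-- the relation of the code -/
def Oz (x : ZB) (g : FreeGroup ℕ) (m n : ℕ) : Prop := Ord (Lz x) (Rz x) (1, m) (g, n)

theorem oz_iso {x y : ZB} {σ : Equiv.Perm ℕ} (h : IsoZ σ x y) (g : FreeGroup ℕ) (m n : ℕ) :
    Oz y g (σ m) (σ n) ↔ Oz x g m n := by
  unfold Oz
  refine o_iso σ (fun m n => ?_) (fun j m n => ?_) _ _ _ _
  · unfold Lz
    rw [h.1]
  · unfold Rz
    rw [h.1]

/-- the decoding map -/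
noncomputable def DM (y : XB (FreeGroup ℕ)) : ZB :=
  (fun i m n => match i with
    | 0 => y.1 0 (enp y m) (enp y n)
    | j + 1 => y.1 0 (enp y n) (y.2.1 (FreeGroup.of j) (enp y m)),
   fun i m => y.2.2 (i + 1) (enp y m))

/-- The codes. -/
structure GM (y : XB (FreeGroup ℕ)) : Prop where
  one : ∀ k, y.2.1 1 k = k
  mul : ∀ γ δ k, y.2.1 (γ * δ) k = y.2.1 γ (y.2.1 δ k)
  auto : ∀ γ i k l, y.1 i (y.2.1 γ k) (y.2.1 γ l) = y.1 i k l
  cov : ∀ k, ∃ γ, Pe y (y.2.1 γ k)
  free : ∀ γ k, Pe y k → Pe y (y.2.1 γ k) → γ = 1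
  inf : {k | Pe y k}.Infinite
  sub : ∀ i k, y.2.2 (i + 1) k = true → Pe y k
  oth : ∀ i k l, y.1 (i + 1) k l = false
  con : ∀ g m n, y.1 0 (enp y m) (y.2.1 g (enp y n)) = true ↔ Oz (DM y) g m n

variable {y y' : XB (FreeGroup ℕ)}

/-- The coded structures of isomorphic codes are isomorphic. -/
theorem dm_iso {τ : Equiv.Perm ℕ} (hi : IsoB τ y y') (hinf : {k | Pe y k}.Infinite) :
    {k | Pe y' k}.Infinite ∧ ∃ σ : Equiv.Perm ℕ, (∀ m, enp y' (σ m) = τ (enp y m)) ∧
      IsoZ σ (DM y) (DM y') := by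
  classical
  obtain ⟨h1, h2, h3⟩ := hi
  have hPe : ∀ k, Pe y' (τ k) ↔ Pe y k := fun k => by
    unfold Pe
    rw [h3]
  have hinf' : {k | Pe y' k}.Infinite := by
    refine (hinf.image τ.injective.injOn).mono ?_
    rintro _ ⟨k, hk, rfl⟩
    exact (hPe k).2 hk
  refine ⟨hinf', ?_⟩
  choose f hf using fun m => enp_sur ((hPe _).2 (enp_mem hinf m))
  have hbij : Function.Bijective f := by
    constructor
    · intro m n hmn
      have e : τ (enp y m) = τ (enp y n) := by rw [← hf m, ← hf n, hmn]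
      exact enp_inj hinf (τ.injective e)
    · intro m'
      obtain ⟨k, hk⟩ := τ.surjective (enp y' m')
      have hk' : Pe y k := (hPe k).1 (by rw [hk]; exact enp_mem hinf' m')
      obtain ⟨m, hm⟩ := enp_sur hk'
      refine ⟨m, enp_inj hinf' ?_⟩
      rw [hf, hm, hk]
  refine ⟨Equiv.ofBijective f hbij, hf, ?_, ?_⟩
  · intro i m n
    cases i with
    | zero =>
      show y'.1 0 (enp y' (f m)) (enp y' (f n)) = y.1 0 (enp y m) (enp y n)
      rw [hf, hf, h1]
    | succ j =>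
      show y'.1 0 (enp y' (f n)) (y'.2.1 (FreeGroup.of j) (enp y' (f m))) =
        y.1 0 (enp y n) (y.2.1 (FreeGroup.of j) (enp y m))
      rw [hf, hf, h2, h1]
  · intro i m
    show y'.2.2 _ (enp y' (f m)) = y.2.2 _ (enp y m)
    rw [hf, h3]

/-- Invariance of the codes. -/
theorem gm_inv {τ : Equiv.Perm ℕ} (h : GM y) (hi : IsoB τ y y') :
    GM y' ∧ ∃ σ : Equiv.Perm ℕ, IsoZ σ (DM y) (DM y') := by
  obtain ⟨hinf', σ, hσ, hσZ⟩ := dm_iso hi h.inf
  obtain ⟨h1, h2, h3⟩ := hi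
  have hPe : ∀ k, Pe y' (τ k) ↔ Pe y k := fun k => by
    unfold Pe
    rw [h3]
  refine ⟨⟨?_, ?_, ?_, ?_, ?_, hinf', ?_, ?_, ?_⟩, σ, hσZ⟩
  · intro k
    obtain ⟨k, rfl⟩ := τ.surjective k
    rw [h2, h.one]
  · intro γ δ k
    obtain ⟨k, rfl⟩ := τ.surjective k
    rw [h2, h2, h2, h.mul]
  · intro γ i k l
    obtain ⟨k, rfl⟩ := τ.surjective k
    obtain ⟨l, rfl⟩ := τ.surjective l
    rw [h2, h2, h1, h1, h.auto]
  · intro k
    obtain ⟨k, rfl⟩ := τ.surjective k
    obtain ⟨γ, hγ⟩ := h.cov k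
    exact ⟨γ, by rw [h2, hPe]; exact hγ⟩
  · intro γ k
    obtain ⟨k, rfl⟩ := τ.surjective k
    rw [h2, hPe, hPe]
    exact h.free γ k
  · intro i k hk
    obtain ⟨k, rfl⟩ := τ.surjective k
    rw [h3] at hk
    exact (hPe k).2 (h.sub i k hk)
  · intro i k l
    obtain ⟨k, rfl⟩ := τ.surjective k
    obtain ⟨l, rfl⟩ := τ.surjective l
    rw [h1]
    exact h.oth i k l
  · intro g m n
    obtain ⟨m, rfl⟩ := σ.surjective m
    obtain ⟨n, rfl⟩ := σ.surjective n
    rw [hσ, hσ, h2, h1, oz_iso hσZ]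
    exact h.con g m n

theorem GM.act_inv (h : GM y) (γ : FreeGroup ℕ) (m : ℕ) :
    y.2.1 γ (y.2.1 γ⁻¹ m) = m ∧ y.2.1 γ⁻¹ (y.2.1 γ m) = m := by
  constructor
  · rw [← h.mul, mul_inv_cancel, h.one]
  · rw [← h.mul, inv_mul_cancel, h.one]

/-- the coordinates of the elements of the code -/
theorem GM.coord (h : GM y) (k : ℕ) : ∃ p : FreeGroup ℕ × ℕ, k = y.2.1 p.1 (enp y p.2) := by
  obtain ⟨γ, hγ⟩ := h.cov k
  obtain ⟨m, hm⟩ := enp_sur hγ
  exact ⟨(γ⁻¹, m), by rw [hm, (h.act_inv γ k).2]⟩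

theorem GM.coord_inj (h : GM y) {w v : FreeGroup ℕ} {m n : ℕ}
    (hmn : y.2.1 w (enp y m) = y.2.1 v (enp y n)) : w = v ∧ m = n := by
  have h1 : y.2.1 (v⁻¹ * w) (enp y m) = enp y n := by
    rw [h.mul, hmn, (h.act_inv v _).2]
  have h2 : v⁻¹ * w = 1 := h.free _ _ (enp_mem h.inf m) (by rw [h1]; exact enp_mem h.inf n)
  have h3 : w = v := by
    have := congrArg (fun g => v * g) h2
    simpa [← mul_assoc] using this
  refine ⟨h3, ?_⟩
  rw [h2, h.one] at h1
  exact enp_inj h.inf h1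

theorem GM.rel (h : GM y) (w v : FreeGroup ℕ) (m n : ℕ) :
    y.1 0 (y.2.1 w (enp y m)) (y.2.1 v (enp y n)) = true ↔
      Ord (Lz (DM y)) (Rz (DM y)) (w, m) (v, n) := by
  have h1 : y.1 0 (y.2.1 w (enp y m)) (y.2.1 v (enp y n)) = true ↔ Oz (DM y) (w⁻¹ * v) m n := by
    rw [← h.con, ← h.auto w⁻¹, (h.act_inv w _).2, ← h.mul]
  rw [h1]
  unfold Oz
  rw [← o_inv w 1 (w⁻¹ * v)]
  have e : w * (w⁻¹ * v) = v := by group
  rw [e, mul_one]

/-- Uniqueness of the code. -/
theorem gm_uni (h : GM y) (h' : GM y') {σ : Equiv.Perm ℕ}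
    (hi : IsoZ σ (DM y) (DM y')) : ∃ τ : Equiv.Perm ℕ, IsoB τ y y' := by
  choose c hc using h.coord
  choose c' hc' using h'.coord
  let f : ℕ → ℕ := fun k => y'.2.1 (c k).1 (enp y' (σ (c k).2))
  have hf : ∀ w m, f (y.2.1 w (enp y m)) = y'.2.1 w (enp y' (σ m)) := by
    intro w m
    obtain ⟨h1, h2⟩ := h.coord_inj (hc (y.2.1 w (enp y m)))
    show y'.2.1 (c _).1 (enp y' (σ (c _).2)) = _
    rw [← h1, ← h2]
  have hbij : Function.Bijective f := by
    constructor
    · intro k l hkl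
      obtain ⟨h1, h2⟩ := h'.coord_inj hkl
      rw [hc k, hc l, h1, σ.injective h2]
    · intro k
      obtain ⟨m, hm⟩ := σ.surjective (c' k).2
      refine ⟨y.2.1 (c' k).1 (enp y m), ?_⟩
      rw [hf, hm, ← hc']
  refine ⟨Equiv.ofBijective f hbij, ?_, ?_, ?_⟩
  · intro i k l
    show y'.1 i (f k) (f l) = y.1 i k l
    cases i with
    | zero =>
      rw [Bool.eq_iff_iff]
      conv_rhs => rw [hc k, hc l]
      rw [h.rel]
      show y'.1 0 (y'.2.1 _ (enp y' _)) (y'.2.1 _ (enp y' _)) = true ↔ _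
      rw [h'.rel]
      exact o_iso σ (fun m n => by unfold Lz; rw [hi.1]) (fun j m n => by unfold Rz; rw [hi.1])
        _ _ _ _
    | succ i => rw [h.oth, h'.oth]
  · intro γ k
    show y'.2.1 γ (f k) = f (y.2.1 γ k)
    conv_rhs => rw [hc k, ← h.mul, hf]
    show y'.2.1 γ (y'.2.1 _ _) = _
    rw [← h'.mul]
  · intro i k
    show y'.2.2 i (f k) = y.2.2 i k
    have hPe : ∀ (y : XB (FreeGroup ℕ)), GM y → ∀ w m, Pe y (y.2.1 w (enp y m)) → w = 1 :=
      fun y h w m hw => h.free w _ (enp_mem h.inf m) hw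
    rcases c_eq : c k with ⟨w, m⟩
    have hk : k = y.2.1 w (enp y m) := by
      have := hc k
      rw [c_eq] at this
      exact this
    have hfk : f k = y'.2.1 w (enp y' (σ m)) := by
      rw [hk]
      exact hf w m
    rw [hfk]
    by_cases hw : w = 1
    · subst hw
      rw [h.one] at hk
      rw [h'.one, hk]
      cases i with
      | zero =>
        have h1 : Pe y (enp y m) := enp_mem h.inf m
        have h2 : Pe y' (enp y' (σ m)) := enp_mem h'.inf _
        unfold Pe at h1 h2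
        rw [h1, h2]
      | succ i => exact hi.2 i m
    · have h1 : ¬ Pe y k := fun hc => hw (hPe y h w m (hk ▸ hc))
      have h2 : ¬ Pe y' (y'.2.1 w (enp y' (σ m))) := fun hc => hw (hPe y' h' w _ hc)
      cases i with
      | zero =>
        unfold Pe at h1 h2
        rw [Bool.not_eq_true] at h1 h2
        rw [h1, h2]
      | succ i =>
        have h3 : y.2.2 (i + 1) k = false := by
          rw [← Bool.not_eq_true]
          exact fun hc => h1 (h.sub i k hc)
        have h4 : y'.2.2 (i + 1) (y'.2.1 w (enp y' (σ m))) = false := by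
          rw [← Bool.not_eq_true]
          exact fun hc => h2 (h'.sub i _ hc)
        rw [h3, h4]

/-- the least element of a finite set -/
theorem least {r : ℕ → ℕ → Prop} (ht : ∀ a b c, r a b → r b c → r a c)
    (hc : ∀ a b, a ≠ b → r a b ∨ r b a) (F : Finset ℕ) (hF : F.Nonempty) :
    ∃ w ∈ F, ∀ u ∈ F, u ≠ w → r w u := by
  induction hF using Finset.Nonempty.cons_induction with
  | singleton a =>
    refine ⟨a, Finset.mem_singleton_self a, fun u hu hne => ?_⟩
    exact absurd (Finset.mem_singleton.1 hu) hne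
  | cons a F ha hF ih =>
    obtain ⟨w, hw, h1⟩ := ih
    have hne : a ≠ w := fun h => ha (h ▸ hw)
    rcases hc a w hne with h2 | h2
    · refine ⟨a, Finset.mem_cons_self a F, fun u hu hua => ?_⟩
      rcases Finset.mem_cons.1 hu with rfl | hu
      · exact absurd rfl hua
      · by_cases huw : u = w
        · rw [huw]
          exact h2
        · exact ht _ _ _ h2 (h1 u hu huw)
    · refine ⟨w, Finset.mem_cons_of_mem hw, fun u hu huw => ?_⟩
      rcases Finset.mem_cons.1 hu with rfl | hu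
      · exact h2
      · exact h1 u hu huw

/-- The code is hereditarily decomposable. -/
theorem gm_hd (h : GM y) (hG : MZ (DM y)) : HD y := by
  have hirr : ∀ a, ¬ y.1 0 a a = true := by
    intro a
    obtain ⟨⟨w, m⟩, rfl⟩ := h.coord a
    rw [h.rel]
    exact hG.o_irr _
  have htr : ∀ a b c, y.1 0 a b = true → y.1 0 b c = true → y.1 0 a c = true := by
    intro a b c
    obtain ⟨⟨w, m⟩, rfl⟩ := h.coord a
    obtain ⟨⟨v, n⟩, rfl⟩ := h.coord b
    obtain ⟨⟨u, k⟩, rfl⟩ := h.coord c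
    rw [h.rel, h.rel, h.rel]
    exact hG.o_tr
  have htot : ∀ a b, a ≠ b → y.1 0 a b = true ∨ y.1 0 b a = true := by
    intro a b hab
    obtain ⟨⟨w, m⟩, rfl⟩ := h.coord a
    obtain ⟨⟨v, n⟩, rfl⟩ := h.coord b
    rw [h.rel, h.rel]
    refine hG.o_tot fun hc => hab ?_
    have hc' : w = v ∧ m = n := Prod.mk.inj hc
    obtain ⟨rfl, rfl⟩ := hc'
    rfl
  refine ⟨?_, h.one, h.mul, h.auto⟩
  intro F hF
  obtain ⟨w, hw, h1⟩ := least (r := fun a b => y.1 0 a b = true) htr htot F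
    (Finset.card_pos.1 (by omega))
  refine ⟨F.erase w, ⟨Finset.erase_subset _ _, ?_⟩, ?_, ?_⟩
  · intro u hu v hv z hz hzn i
    have hzw : z = w := by
      by_contra hc
      exact hzn (Finset.mem_erase.2 ⟨hc, hz⟩)
    subst hzw
    cases i with
    | zero =>
      have e : ∀ u ∈ F.erase z, y.1 0 z u = true ∧ y.1 0 u z = false := by
        intro u hu
        obtain ⟨hu1, hu2⟩ := Finset.mem_erase.1 hu
        have h2 := h1 u hu2 hu1
        refine ⟨h2, ?_⟩
        rw [← Bool.not_eq_true]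
        exact fun hc => hirr _ (htr _ _ _ h2 hc)
      rw [(e u hu).1, (e u hu).2, (e v hv).1, (e v hv).2]
      exact ⟨rfl, rfl⟩
    | succ i => simp only [h.oth, and_self]
  · rw [Finset.card_erase_of_mem hw]
    omega
  · intro hc
    have := Finset.card_erase_of_mem hw
    rw [hc] at this
    omega

/-- Existence of the code. -/
theorem gm_ex {x : ZB} :
    ∃ y : XB (FreeGroup ℕ), GM y ∧ ∃ σ : Equiv.Perm ℕ, IsoZ σ (DM y) x := by
  classical
  obtain ⟨β⟩ : Nonempty (FreeGroup ℕ × ℕ ≃ ℕ) := by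
    have : Countable (FreeGroup ℕ) := by
      have h : Function.Surjective (fun L : List (ℕ × Bool) => FreeGroup.mk L) := by
        intro x
        refine Quot.inductionOn x fun L => ⟨L, rfl⟩
      exact h.countable
    exact nonempty_equiv_of_countable
  let y : XB (FreeGroup ℕ) :=
    (fun i p q => if i = 0 then decide (Ord (Lz x) (Rz x) (β.symm p) (β.symm q)) else false,
     fun γ p => β (γ * (β.symm p).1, (β.symm p).2),
     fun i p => if i = 0 then decide ((β.symm p).1 = 1)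
      else decide ((β.symm p).1 = 1) && x.2 (i - 1) (β.symm p).2)
  have y1 : ∀ w v m n, y.1 0 (β (w, m)) (β (v, n)) = true ↔
      Ord (Lz x) (Rz x) (w, m) (v, n) := by
    intro w v m n
    show (if (0 : ℕ) = 0 then decide _ else false) = true ↔ _
    rw [if_pos rfl, decide_eq_true_iff, β.symm_apply_apply, β.symm_apply_apply]
  have y1' : ∀ i p q, y.1 (i + 1) p q = false := by
    intro i p q
    simp [y]
  have y2 : ∀ γ w m, y.2.1 γ (β (w, m)) = β (γ * w, m) := by
    intro γ w m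
    show β (γ * (β.symm (β (w, m))).1, (β.symm (β (w, m))).2) = _
    rw [β.symm_apply_apply]
  have yP : ∀ w m, Pe y (β (w, m)) ↔ w = 1 := by
    intro w m
    unfold Pe
    simp [y]
  have y3 : ∀ i m, y.2.2 (i + 1) (β (1, m)) = x.2 i m := by
    intro i m
    simp [y]
  have y4 : ∀ i w m, w ≠ 1 → y.2.2 (i + 1) (β (w, m)) = false := by
    intro i w m hw
    simp [y, hw]
  have hinf : {k | Pe y k}.Infinite := by
    have h1 : Function.Injective fun m : ℕ => β ((1 : FreeGroup ℕ), m) := fun m n h => by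
      have := β.injective h
      simpa using this
    refine (Set.infinite_range_of_injective h1).mono ?_
    rintro _ ⟨m, rfl⟩
    exact (yP 1 m).2 rfl
  -- the enumeration
  have hen : ∀ m, ∃ m', enp y m = β (1, m') := by
    intro m
    have h1 := enp_mem hinf m
    obtain ⟨⟨w, m'⟩, hw⟩ := β.surjective (enp y m)
    rw [← hw, yP] at h1
    subst h1
    exact ⟨m', hw.symm⟩
  choose f hf using hen
  have hbij : Function.Bijective f := by
    constructor
    · intro m n hmn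
      refine enp_inj hinf ?_
      rw [hf, hf, hmn]
    · intro m'
      obtain ⟨m, hm⟩ := enp_sur ((yP 1 m').2 rfl)
      refine ⟨m, ?_⟩
      rw [hf] at hm
      have := β.injective hm
      simpa using this
  let σ : Equiv.Perm ℕ := Equiv.ofBijective f hbij
  have hσ : ∀ m, enp y m = β (1, σ m) := hf
  have hZ : IsoZ σ (DM y) x := by
    constructor
    · intro i m n
      rw [Bool.eq_iff_iff]
      cases i with
      | zero =>
        show _ ↔ y.1 0 (enp y m) (enp y n) = true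
        rw [hσ, hσ, y1, o_same]
        exact Iff.rfl
      | succ j =>
        show _ ↔ y.1 0 (enp y n) (y.2.1 (FreeGroup.of j) (enp y m)) = true
        rw [hσ, hσ, y2, y1, mul_one]
        have h1 := o_up (lt := Lz x) (R := Rz x) (g := 1) (j := j) (m := σ m) (n := σ n)
        rw [one_mul] at h1
        rw [h1]
        exact Iff.rfl
    · intro i m
      show x.2 i (σ m) = y.2.2 (i + 1) (enp y m)
      rw [hσ, y3]
  refine ⟨y, ⟨?_, ?_, ?_, ?_, ?_, hinf, ?_, y1', ?_⟩, σ, hZ⟩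
  · intro k
    obtain ⟨⟨w, m⟩, rfl⟩ := β.surjective k
    rw [y2, one_mul]
  · intro γ δ k
    obtain ⟨⟨w, m⟩, rfl⟩ := β.surjective k
    rw [y2 (γ * δ), y2 δ, y2 γ, mul_assoc]
  · intro γ i k l
    obtain ⟨⟨w, m⟩, rfl⟩ := β.surjective k
    obtain ⟨⟨v, n⟩, rfl⟩ := β.surjective l
    cases i with
    | zero => rw [y2, y2, Bool.eq_iff_iff, y1, y1, o_inv]
    | succ i => rw [y1', y1']
  · intro k
    obtain ⟨⟨w, m⟩, rfl⟩ := β.surjective k
    refine ⟨w⁻¹, ?_⟩
    rw [y2, yP, inv_mul_cancel]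
  · intro γ k
    obtain ⟨⟨w, m⟩, rfl⟩ := β.surjective k
    rw [y2, yP, yP]
    rintro rfl h
    rw [mul_one] at h
    exact h
  · intro i k
    obtain ⟨⟨w, m⟩, rfl⟩ := β.surjective k
    intro h
    rw [yP]
    by_contra hw
    rw [y4 i w m hw] at h
    exact absurd h Bool.false_ne_true
  · intro g m n
    rw [hσ, hσ, y2, y1, mul_one]
    exact oz_iso hZ g m n

end Pool.Agent.H2.MM
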