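import Pool.Agent.H2.MM.Wrd

set_option autoImplicit false

/-!
The invariant linear order on the product of the free group with a linear order with staircase
relations.
-/

namespace Pool.Agent.H2.MM

/-- a linear order with relations which are closed upwards in the first variable and downwards in
the second variable -/
structure Mono (lt : ℕ → ℕ → Prop) (R : ℕ → ℕ → ℕ → Prop) : Prop where
  irr : ∀ m, ¬ lt m m
  tr : ∀ m n k, lt m n → lt n k → lt m k
  tot : ∀ m n, m ≠ n → lt m n ∨ lt n m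
  up : ∀ j m m' n, R j m n → lt m m' → R j m' n
  dn : ∀ j m n n', R j m n → lt n' n → R j m n'

/-- the relation for the levels at distance at most one -/
def Bs (lt : ℕ → ℕ → Prop) (R : ℕ → ℕ → ℕ → Prop) (p q : FreeGroup ℕ × ℕ) : Prop :=
  (p.1 = q.1 ∧ lt p.2 q.2) ∨ (∃ j, q.1 = p.1 * FreeGroup.of j ∧ R j q.2 p.2) ∨
    (∃ j, p.1 = q.1 * FreeGroup.of j ∧ ¬ R j p.2 q.2)

/-- the linear order -/
def Ord (lt : ℕ → ℕ → Prop) (R : ℕ → ℕ → ℕ → Prop) (p q : FreeGroup ℕ × ℕ) : Prop :=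
  Lim ds Tn (Bs lt R) p q

theorem of_mul_of (j k : ℕ) : FreeGroup.of j * FreeGroup.of k ≠ 1 := by
  intro h
  have h1 : FreeGroup.of j = (FreeGroup.of k)⁻¹ := mul_eq_one_iff_eq_inv.1 h
  have h2 := congrArg FreeGroup.toWord h1
  rw [FreeGroup.toWord_inv, FreeGroup.toWord_of, FreeGroup.toWord_of] at h2
  simp [FreeGroup.invRev] at h2

theorem of_inj {j k : ℕ} (h : FreeGroup.of j = FreeGroup.of k) : j = k :=
  FreeGroup.of_injective h

theorem ds_zero {p q : FreeGroup ℕ × ℕ} (h : ds p q = 0) : p.1 = q.1 := by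
  unfold ds at h
  rw [FreeGroup.norm_eq_zero] at h
  exact inv_mul_eq_one.1 h

theorem ds_one {p q : FreeGroup ℕ × ℕ} {j : ℕ} (h : q.1 = p.1 * FreeGroup.of j) :
    ds p q = 1 := by
  unfold ds
  rw [h]
  have : p.1⁻¹ * (p.1 * FreeGroup.of j) = FreeGroup.of j := by group
  rw [this]
  exact FreeGroup.norm_of j

variable {lt : ℕ → ℕ → Prop} {R : ℕ → ℕ → ℕ → Prop}

theorem Mono.lo (h : Mono lt R) : LO ds 1 (Bs lt R) := by
  refine ⟨?_, ?_, ?_⟩
  · rintro p (⟨-, h1⟩ | ⟨j, h1, -⟩ | ⟨j, h1, -⟩)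
    · exact h.irr _ h1
    · exact FreeGroup.of_ne_one j (mul_eq_left.1 h1.symm)
    · exact FreeGroup.of_ne_one j (mul_eq_left.1 h1.symm)
  · intro p q hd hne
    rcases Nat.lt_or_ge (ds p q) 1 with h1 | h1
    · have h2 := ds_zero (p := p) (q := q) (by omega)
      have h3 : p.2 ≠ q.2 := fun h3 => hne (Prod.ext h2 h3)
      rcases h.tot _ _ h3 with h4 | h4
      · exact Or.inl (Or.inl ⟨h2, h4⟩)
      · exact Or.inr (Or.inl ⟨h2.symm, h4⟩)
    · obtain ⟨j, h2⟩ := norm_eq_one (g := p.1⁻¹ * q.1) (le_antisymm hd h1)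
      rcases h2 with h2 | h2
      · have h3 : q.1 = p.1 * FreeGroup.of j := by
          rw [← h2]
          group
        by_cases h4 : R j q.2 p.2
        · exact Or.inl (Or.inr (Or.inl ⟨j, h3, h4⟩))
        · exact Or.inr (Or.inr (Or.inr ⟨j, h3, h4⟩))
      · have h3 : p.1 = q.1 * FreeGroup.of j := by
          have : FreeGroup.of j = (p.1⁻¹ * q.1)⁻¹ := by rw [h2, inv_inv]
          rw [this]
          group
        by_cases h4 : R j p.2 q.2
        · exact Or.inr (Or.inr (Or.inl ⟨j, h3, h4⟩))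
        · exact Or.inl (Or.inr (Or.inr ⟨j, h3, h4⟩))
  · intro p q z h1 h2 h3 h4 h5
    rcases h4 with ⟨a1, a2⟩ | ⟨j, a1, a2⟩ | ⟨j, a1, a2⟩
    · rcases h5 with ⟨b1, b2⟩ | ⟨k, b1, b2⟩ | ⟨k, b1, b2⟩
      · exact Or.inl ⟨a1.trans b1, h.tr _ _ _ a2 b2⟩
      · refine Or.inr (Or.inl ⟨k, by rw [a1]; exact b1, h.dn _ _ _ _ b2 a2⟩)
      · refine Or.inr (Or.inr ⟨k, a1.trans b1, fun hc => b2 (h.up _ _ _ _ hc a2)⟩)
    · have e1 := ds_one a1
      rcases h5 with ⟨b1, b2⟩ | ⟨k, b1, b2⟩ | ⟨k, b1, b2⟩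
      · exact Or.inr (Or.inl ⟨j, b1.symm.trans a1, h.up _ _ _ _ a2 b2⟩)
      · exfalso
        have e2 := ds_one b1
        have e3 := no_tri e1 e2
        have e4 := ds_zero (p := p) (q := z) (by omega)
        rw [a1, mul_assoc, ← e4] at b1
        exact of_mul_of j k (mul_eq_left.1 b1.symm)
      · have e2 : ds q z = 1 := by rw [ds_symm]; exact ds_one b1
        have e3 := no_tri e1 e2
        have e4 := ds_zero (p := p) (q := z) (by omega)
        have e5 : j = k := of_inj (mul_left_cancel (a := p.1) (by rw [← a1, b1, e4]))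
        subst e5
        refine Or.inl ⟨e4, ?_⟩
        by_cases e6 : p.2 = z.2
        · rw [e6] at a2
          exact absurd a2 b2
        · rcases h.tot _ _ e6 with e7 | e7
          · exact e7
          · exact absurd (h.dn _ _ _ _ a2 e7) b2
    · have e1 : ds p q = 1 := by rw [ds_symm]; exact ds_one a1
      rcases h5 with ⟨b1, b2⟩ | ⟨k, b1, b2⟩ | ⟨k, b1, b2⟩
      · refine Or.inr (Or.inr ⟨j, by rw [← b1]; exact a1, fun hc => a2 (h.dn _ _ _ _ hc b2)⟩)
      · have e2 := ds_one b1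
        have e3 := no_tri e1 e2
        have e4 := ds_zero (p := p) (q := z) (by omega)
        have e5 : j = k := of_inj (mul_left_cancel (a := q.1) (by rw [← a1, ← b1, e4]))
        subst e5
        refine Or.inl ⟨e4, ?_⟩
        by_cases e6 : p.2 = z.2
        · rw [e6] at a2
          exact absurd b2 a2
        · rcases h.tot _ _ e6 with e7 | e7
          · exact e7
          · exact absurd (h.up _ _ _ _ b2 e7) a2
      · exfalso
        have e2 : ds q z = 1 := by rw [ds_symm]; exact ds_one b1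
        have e3 := no_tri e1 e2
        have e4 := ds_zero (p := p) (q := z) (by omega)
        rw [b1, mul_assoc, ← e4] at a1
        exact of_mul_of k j (mul_eq_left.1 a1.symm)

theorem Mono.o_irr (h : Mono lt R) (p : FreeGroup ℕ × ℕ) : ¬ Ord lt R p p :=
  lim_irr hyp_ds (fun _ => turn_tn) h.lo p

theorem Mono.o_tot (h : Mono lt R) {p q : FreeGroup ℕ × ℕ} (hpq : p ≠ q) :
    Ord lt R p q ∨ Ord lt R q p := lim_tot hyp_ds (fun _ => turn_tn) h.lo hpq

theorem Mono.o_tr (h : Mono lt R) {p q z : FreeGroup ℕ × ℕ} (h1 : Ord lt R p q)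
    (h2 : Ord lt R q z) : Ord lt R p z := lim_tr hyp_ds (fun _ => turn_tn) h.lo h1 h2

theorem o_same {g : FreeGroup ℕ} {m n : ℕ} : Ord lt R (g, m) (g, n) ↔ lt m n := by
  unfold Ord
  rw [lim_iff (d := 0) (by
    show FreeGroup.norm (g⁻¹ * g) ≤ 1
    rw [inv_mul_cancel, FreeGroup.norm_one]
    omega)]
  show Bs lt R (g, m) (g, n) ↔ _
  constructor
  · rintro (⟨-, h1⟩ | ⟨j, h1, -⟩ | ⟨j, h1, -⟩)
    · exact h1
    · exact absurd (mul_eq_left.1 h1.symm) (FreeGroup.of_ne_one j)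
    · exact absurd (mul_eq_left.1 h1.symm) (FreeGroup.of_ne_one j)
  · exact fun h1 => Or.inl ⟨rfl, h1⟩

theorem o_up {g : FreeGroup ℕ} {j m n : ℕ} :
    Ord lt R (g, n) (g * FreeGroup.of j, m) ↔ R j m n := by
  unfold Ord
  rw [lim_iff (d := 0) (by rw [ds_one (j := j) rfl])]
  show Bs lt R (g, n) (g * FreeGroup.of j, m) ↔ _
  constructor
  · rintro (⟨h1, -⟩ | ⟨k, h1, h2⟩ | ⟨k, h1, -⟩)
    · exact absurd (mul_eq_left.1 (show g * FreeGroup.of j = g from h1.symm))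
        (FreeGroup.of_ne_one j)
    · have e1 : j = k := of_inj (mul_left_cancel (a := g) h1)
      subst e1
      exact h2
    · have h1' : g * (FreeGroup.of j * FreeGroup.of k) = g := by
        rw [← mul_assoc]
        exact h1.symm
      exact absurd (mul_eq_left.1 h1') (of_mul_of j k)
  · exact fun h1 => Or.inr (Or.inl ⟨j, rfl, h1⟩)

/-- transport along a bijection -/
theorem it_map {X : Type} {δ : X → X → ℕ} {T r r' : X → X → Prop} (φ : X ≃ X)
    (h1 : ∀ p q, δ (φ p) (φ q) = δ p q) (h2 : ∀ p q, T (φ p) (φ q) ↔ T p q)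
    (h3 : ∀ p q, r' (φ p) (φ q) ↔ r p q) : ∀ (d : ℕ) (p q : X),
      It δ T r' d (φ p) (φ q) ↔ It δ T r d p q
  | 0, p, q => h3 p q
  | d + 1, p, q => by
    have ih := it_map φ h1 h2 h3 d
    have hs : ∀ p q, Sep δ (d + 1) (It δ T r' d) (φ p) (φ q) ↔ Sep δ (d + 1) (It δ T r d) p q := by
      intro p q
      constructor
      · rintro ⟨z, k1, k2, k3, k4⟩
        obtain ⟨z, rfl⟩ := φ.surjective z
        rw [h1] at k1 k2
        rw [ih] at k3 k4
        exact ⟨z, k1, k2, k3, k4⟩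
      · rintro ⟨z, k1, k2, k3, k4⟩
        exact ⟨φ z, by rw [h1]; exact k1, by rw [h1]; exact k2, (ih _ _).2 k3, (ih _ _).2 k4⟩
    show Nxt δ T (d + 1) (It δ T r' d) (φ p) (φ q) ↔ Nxt δ T (d + 1) (It δ T r d) p q
    unfold Nxt
    rw [h1, ih, hs, hs, h2]

theorem bs_inv (γ : FreeGroup ℕ) (p q : FreeGroup ℕ × ℕ) :
    Bs lt R (γ * p.1, p.2) (γ * q.1, q.2) ↔ Bs lt R p q := by
  unfold Bs
  simp only [mul_assoc, mul_right_inj]

/-- invariance -/
theorem o_inv (γ g h : FreeGroup ℕ) (m n : ℕ) :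
    Ord lt R (γ * g, m) (γ * h, n) ↔ Ord lt R (g, m) (h, n) := by
  unfold Ord Lim
  rw [ds_inv γ (g, m) (h, n)]
  exact it_map (δ := ds) (T := Tn) (r := Bs lt R) (r' := Bs lt R)
    ((Equiv.mulLeft γ).prodCongr (Equiv.refl ℕ)) (ds_inv γ) (tn_inv γ) (bs_inv γ) _ (g, m) (h, n)

/-- equivariance -/
theorem o_iso {lt' : ℕ → ℕ → Prop} {R' : ℕ → ℕ → ℕ → Prop} (σ : Equiv.Perm ℕ)
    (h1 : ∀ m n, lt' (σ m) (σ n) ↔ lt m n) (h2 : ∀ j m n, R' j (σ m) (σ n) ↔ R j m n)
    (g h : FreeGroup ℕ) (m n : ℕ) :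
    Ord lt' R' (g, σ m) (h, σ n) ↔ Ord lt R (g, m) (h, n) := by
  unfold Ord Lim
  exact it_map (δ := ds) (T := Tn) (r := Bs lt R) (r' := Bs lt' R')
    ((Equiv.refl (FreeGroup ℕ)).prodCongr σ) (fun _ _ => rfl) (fun _ _ => Iff.rfl) (fun p q => by
      show Bs lt' R' (p.1, σ p.2) (q.1, σ q.2) ↔ _
      unfold Bs
      simp only [h1, h2]) _ (g, m) (h, n)

end Pool.Agent.H2.MM
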