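import Pool.Agent.H2.MM.Pol
import Pool.Graph.R_pool_sql_team_seeded_35f281b4.K7.H41.NC.Fo

set_option autoImplicit false

/-!
First-order theories with polymorphisms.
-/

namespace Pool.Agent.H2.MM

open FirstOrder FirstOrder.Language
open Pool.Agent.H533R2.VO (RS)
open Pool.Agent.H533R2.VS (US UIso UDich VCu)
open Pool.Agent.H2.VC (pr)
open Pool.Agent.W889.FO
open Pool.Agent.W889.FO.St0 (RF LF W D gr fun_iff)
open Pool.Agent.R617.VT (ar_e dc Nrm)

/-- relations which are closed under an operation -/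
def ClG {r : ℕ} (m : (Fin r → ℕ) → ℕ) {n : ℕ} (S : (Fin n → ℕ) → Prop) : Prop :=
  ∀ s : Fin r → Fin n → ℕ, (∀ p, S (s p)) → S fun j => m fun p => s p j

/-- polymorphisms -/
def PolG {L : FirstOrder.Language.{0, 0}} (S : L.Structure ℕ) {r : ℕ} (m : (Fin r → ℕ) → ℕ) :
    Prop :=
  (∀ (n : ℕ) (R : L.Relations n) (s : Fin r → Fin n → ℕ),
    (∀ p, @Structure.RelMap L ℕ S n R (s p)) →
      @Structure.RelMap L ℕ S n R fun j => m fun p => s p j) ∧
  ∀ (n : ℕ) (F : L.Functions n) (s : Fin r → Fin n → ℕ),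
    (@Structure.funMap L ℕ S n F fun j => m fun p => s p j) =
      m fun p => @Structure.funMap L ℕ S n F (s p)

/-- the interpretation of a binary relation symbol -/
def rl {L : FirstOrder.Language.{0, 0}} (S : L.Structure ℕ) (Q : L.Relations 2) (u v : ℕ) :
    Prop := @Structure.RelMap L ℕ S 2 Q ![u, v]

theorem pr_two {m : ℕ} (hm : m = 2) (u v : ℕ) :
    (pr u v : Fin m → ℕ) = fun k => ![u, v] (Fin.cast hm k) := by
  subst hm
  funext k
  fin_cases k <;> rfl

section

variable {L : FirstOrder.Language.{0, 0}} {e : (Σ n, (LF L).Relations n) → ℕ}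
  (he : Function.Injective e)

theorem ql_rl (x : RS (Pool.Agent.R617.VT.ar e)) (Q : L.Relations 2) :
    Ql x (e ⟨2, RF.rel Q⟩) = rl (D (dc he x)) Q := by
  funext u v
  show (x (e ⟨2, RF.rel Q⟩) (pr u v) = true) = _
  rw [pr_two (ar_e he ⟨2, RF.rel Q⟩) u v]
  rfl

theorem cl_pol {x : RS (Pool.Agent.R617.VT.ar e)} (hx : Nrm x) (hW : W (dc he x)) {r : ℕ}
    (hr : 0 < r) {m : (Fin r → ℕ) → ℕ} (hm : PolG (D (dc he x)) m) (i : ℕ) :
    ClG m fun t => x i t = true := by
  intro s hs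
  by_cases hi : ∃ p, e p = i
  · obtain ⟨⟨n, P⟩, rfl⟩ := hi
    have hn : Pool.Agent.R617.VT.ar e (e ⟨n, P⟩) = n := ar_e he ⟨n, P⟩
    -- the tuples over `Fin n`
    have key : ∀ t : Fin (Pool.Agent.R617.VT.ar e (e ⟨n, P⟩)) → ℕ, x (e ⟨n, P⟩) t = true ↔
        @Structure.RelMap (LF L) ℕ (dc he x) n P fun k => t (Fin.cast hn.symm k) := by
      intro t
      rw [Pool.Agent.R617.VT.rel_dc]
      exact Iff.rfl
    have hs' := fun p => (key (s p)).1 (hs p)
    refine (key _).2 ?_
    cases P with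
    | rel R => exact hm.1 n R (fun p k => s p (Fin.cast hn.symm k)) hs'
    | @fn l F =>
      have hg : ∀ w : Fin (l + 1) → ℕ, @Structure.RelMap (LF L) ℕ (dc he x) (l + 1) (RF.fn F) w ↔
          @Structure.funMap L ℕ (D (dc he x)) l F (fun k => w k.castSucc) = w (Fin.last l) := by
        intro w
        rw [fun_iff hW F (fun k => w k.castSucc) (w (Fin.last l))]
        have e1 : (Fin.snoc (α := fun _ => ℕ) (fun k => w k.castSucc) (w (Fin.last l)) :
            Fin (l + 1) → ℕ) = w := by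
          funext j
          refine Fin.lastCases ?_ (fun j => ?_) j
          · rw [Fin.snoc_last]
          · rw [Fin.snoc_castSucc]
        show _ ↔ @Structure.RelMap (LF L) ℕ (dc he x) (l + 1) (RF.fn F)
          (Fin.snoc (α := fun _ => ℕ) (fun k => w k.castSucc) (w (Fin.last l)))
        rw [e1]
      refine (hg _).2 ?_
      have h2 := hm.2 l F fun p k => s p (Fin.cast hn.symm k.castSucc)
      refine h2.trans ?_
      show m _ = m _
      congr 1
      funext p
      exact (hg _).1 (hs' p)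
  · have h1 : x i (s ⟨0, hr⟩) = true := hs ⟨0, hr⟩
    rw [hx i hi] at h1
    exact absurd h1 Bool.false_ne_true

end

/-- the minimum of two elements -/
noncomputable def mn2 (le : ℕ → ℕ → Prop) (f : Fin 2 → ℕ) : ℕ := mn le (f 0) (f 1)

/-- the maximum of two elements -/
noncomputable def mx2 (le : ℕ → ℕ → Prop) (f : Fin 2 → ℕ) : ℕ := mx le (f 0) (f 1)

theorem cl_two {m : ℕ → ℕ → ℕ} {n : ℕ} {S : (Fin n → ℕ) → Prop} :
    ClG (fun f : Fin 2 → ℕ => m (f 0) (f 1)) S ↔ Cl m S := by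
  constructor
  · intro h s t hs ht
    have := h ![s, t] (fun p => by
      fin_cases p
      · exact hs
      · exact ht)
    exact this
  · intro h s hs
    exact h (s 0) (s 1) (hs 0) (hs 1)

/-- The dichotomy for the theories with the polymorphisms minimum and maximum. -/
theorem fo_pm {L : FirstOrder.Language.{0, 0}} (hL : Countable L.Symbols) (Q : L.Relations 2)
    (T : L.Theory) (h : ∀ S : L.Structure ℕ, @Theory.Model L ℕ S T →
      Lin (rl S Q) ∧ PolG S (mn2 (rl S Q)) ∧ PolG S (mx2 (rl S Q))) : VaughtF L T := by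
  refine Pool.Agent.K7.H41.NC.fo_of hL T fun e he => ⟨Pm (e ⟨2, RF.rel Q⟩), vcu_pm _,
    fun x hx hW hM => ?_⟩
  obtain ⟨h1, h2, h3⟩ := h _ hM
  unfold Pm
  rw [ql_rl he]
  exact ⟨h1, fun i => ⟨cl_two.1 (cl_pol he hx hW (by omega) h2 i),
    cl_two.1 (cl_pol he hx hW (by omega) h3 i)⟩⟩

end Pool.Agent.H2.MM
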