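import Mathlib.Order.Basic
import Mathlib.Tactic

set_option autoImplicit false

/-!
Extension of a local order on a tree-like space to a linear order.
-/

namespace Pool.Agent.H2.MM

/-- tree-like distances with values in the natural numbers -/
structure Hyp {X : Type} (δ : X → X → ℕ) : Prop where
  zero : ∀ p, δ p p = 0
  symm : ∀ p q, δ p q = δ q p
  four : ∀ p q z z', δ p q + δ z z' ≤ max (δ p z + δ q z') (δ p z' + δ q z)

/-- there is a point which separates `p` and `q`, within the radius `d` -/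
def Sep {X : Type} (δ : X → X → ℕ) (d : ℕ) (r : X → X → Prop) (p q : X) : Prop :=
  ∃ z, δ p z ≤ d ∧ δ z q ≤ d ∧ r p z ∧ r z q

/-- the extension of the relation from the radius `d` to the radius `d + 1` -/
def Nxt {X : Type} (δ : X → X → ℕ) (T : X → X → Prop) (d : ℕ) (r : X → X → Prop) (p q : X) :
    Prop :=
  (δ p q ≤ d ∧ r p q) ∨ (δ p q = d + 1 ∧ (Sep δ d r p q ∨ (¬ Sep δ d r q p ∧ T p q)))

/-- local orders of radius `d` -/
structure LO {X : Type} (δ : X → X → ℕ) (d : ℕ) (r : X → X → Prop) : Prop where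
  irr : ∀ p, ¬ r p p
  tot : ∀ p q, δ p q ≤ d → p ≠ q → r p q ∨ r q p
  tr : ∀ p q z, δ p q ≤ d → δ q z ≤ d → δ p z ≤ d → r p q → r q z → r p z

/-- the conditions on the decisions at distance `D` -/
structure Turn {X : Type} (δ : X → X → ℕ) (T : X → X → Prop) (D : ℕ) : Prop where
  one : ∀ p q, δ p q = D → (T p q ↔ ¬ T q p)
  two : ∀ p p' q, δ p q = D → δ p' q = D → δ p p' < D → T p q → T p' q
  three : ∀ p q z, δ p q = D → δ q z = D → δ p z = D → T p q → T q z → ¬ T z p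

variable {X : Type} {δ : X → X → ℕ} {d : ℕ} {r T : X → X → Prop}

theorem LO.asym (h : LO δ d r) (hδ : Hyp δ) {p q : X} (hd : δ p q ≤ d) (h1 : r p q) :
    ¬ r q p := fun h2 =>
  h.irr p (h.tr p q p hd (by rw [hδ.symm]; exact hd) (by rw [hδ.zero]; exact Nat.zero_le _) h1 h2)

theorem LO.sep_asym (h : LO δ d r) (hδ : Hyp δ) {p q : X} (hd : δ p q = d + 1)
    (h1 : Sep δ d r p q) : ¬ Sep δ d r q p := by
  rintro ⟨z', h2, h3, h4, h5⟩
  obtain ⟨z, k2, k3, k4, k5⟩ := h1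
  have h6 := hδ.four p q z z'
  rw [hδ.symm q z, hδ.symm p z'] at h6
  have h7 : δ z z' ≤ d := by omega
  have h8 : r z' z := h.tr z' p z h3 k2 (by rw [hδ.symm]; exact h7) h5 k4
  have h9 : r z z' := h.tr z q z' k3 h2 h7 k5 h4
  exact h.asym hδ h7 h9 h8

theorem LO.next (h : LO δ d r) (hδ : Hyp δ) (hT : Turn δ T (d + 1)) :
    LO δ (d + 1) (Nxt δ T d r) := by
  have hirr : ∀ p, ¬ Nxt δ T d r p p := by
    rintro p (⟨-, h1⟩ | ⟨h1, -⟩)
    · exact h.irr p h1
    · rw [hδ.zero] at h1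
      omega
  have htot : ∀ p q, δ p q ≤ d + 1 → p ≠ q → Nxt δ T d r p q ∨ Nxt δ T d r q p := by
    intro p q h1 h2
    rcases Nat.lt_or_ge (δ p q) (d + 1) with h3 | h3
    · rcases h.tot p q (by omega) h2 with h4 | h4
      · exact Or.inl (Or.inl ⟨by omega, h4⟩)
      · exact Or.inr (Or.inl ⟨by rw [hδ.symm]; omega, h4⟩)
    · have h4 : δ p q = d + 1 := le_antisymm h1 h3
      have h4' : δ q p = d + 1 := by rw [hδ.symm]; exact h4
      by_cases h5 : Sep δ d r p q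
      · exact Or.inl (Or.inr ⟨h4, Or.inl h5⟩)
      · by_cases h6 : Sep δ d r q p
        · exact Or.inr (Or.inr ⟨h4', Or.inl h6⟩)
        · by_cases h7 : T p q
          · exact Or.inl (Or.inr ⟨h4, Or.inr ⟨h6, h7⟩⟩)
          · have h8 : T q p := by
              rw [hT.one q p h4']
              exact h7
            exact Or.inr (Or.inr ⟨h4', Or.inr ⟨h5, h8⟩⟩)
  have hasy : ∀ p q, Nxt δ T d r p q → ¬ Nxt δ T d r q p := by
    rintro p q (⟨h1, h2⟩ | ⟨h1, h2⟩) (⟨h3, h4⟩ | ⟨h3, h4⟩)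
    · exact h.asym hδ h1 h2 h4
    · rw [hδ.symm] at h3
      omega
    · rw [hδ.symm] at h3
      omega
    · rcases h2 with h2 | ⟨h2, h2'⟩
      · rcases h4 with h4 | ⟨h4, h4'⟩
        · exact h.sep_asym hδ h1 h2 h4
        · exact h4 h2
      · rcases h4 with h4 | ⟨h4, h4'⟩
        · exact h2 h4
        · exact (hT.one p q h1).1 h2' h4'
  have hcyc1 : ∀ p q z, δ p q ≤ d → δ q z ≤ d → δ p z ≤ d + 1 → r p q → r q z →
      ¬ Nxt δ T d r z p := by
    intro p q z h1 h2 h3 h4 h5 h6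
    rcases Nat.lt_or_ge (δ p z) (d + 1) with h7 | h7
    · exact hasy _ _ h6 (Or.inl ⟨by omega, h.tr p q z h1 h2 (by omega) h4 h5⟩)
    · exact hasy _ _ h6 (Or.inr ⟨by omega, Or.inl ⟨q, h1, h2, h4, h5⟩⟩)
  have hcyc2 : ∀ p q z, δ p q = d + 1 → δ q z ≤ d + 1 → δ p z ≤ d + 1 → Sep δ d r p q →
      Nxt δ T d r q z → ¬ Nxt δ T d r z p := by
    rintro p q z h1 h2 h3 ⟨w, k1, k2, k3, k4⟩ h5 h6
    have h7 : δ w z ≤ d := by
      have h8 := hδ.four p q w z
      rw [hδ.symm q w] at h8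
      omega
    by_cases hwz : w = z
    · subst hwz
      exact hasy _ _ h6 (Or.inl ⟨k1, k3⟩)
    · rcases h.tot w z h7 hwz with h8 | h8
      · exact hcyc1 p w z k1 h7 h3 k3 h8 h6
      · exact hcyc1 z w q (by rw [hδ.symm]; exact h7) k2 (by rw [hδ.symm]; exact h2) h8 k4 h5
  have hcyc : ∀ p q z, δ p q ≤ d + 1 → δ q z ≤ d + 1 → δ p z ≤ d + 1 → Nxt δ T d r p q →
      Nxt δ T d r q z → ¬ Nxt δ T d r z p := by
    intro p q z h1 h2 h3 h4 h5 h6
    rcases h4 with ⟨a1, a2⟩ | ⟨a1, a2⟩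
    · rcases h5 with ⟨b1, b2⟩ | ⟨b1, b2⟩
      · exact hcyc1 p q z a1 b1 h3 a2 b2 h6
      · rcases b2 with b2 | ⟨b2, b3⟩
        · exact hcyc2 q z p b1 (by rw [hδ.symm]; exact h3) (by rw [hδ.symm]; exact h1) b2 h6
            (Or.inl ⟨a1, a2⟩)
        · rcases h6 with ⟨c1, c2⟩ | ⟨c1, c2⟩
          · exact hcyc1 z p q c1 a1 (by rw [hδ.symm]; exact h2) c2 a2 (Or.inr ⟨b1, Or.inr ⟨b2, b3⟩⟩)
          · rcases c2 with c2 | ⟨c2, c3⟩
            · exact hcyc2 z p q c1 h1 (by rw [hδ.symm]; exact h2) c2 (Or.inl ⟨a1, a2⟩)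
                (Or.inr ⟨b1, Or.inr ⟨b2, b3⟩⟩)
            · -- `q z` and `z p` are far
              have e1 : δ p z = d + 1 := by rw [hδ.symm]; exact c1
              have h7 : ¬ T z q := (hT.one q z b1).1 b3
              have h8 : T p z := by
                refine hT.two q p z b1 e1 ?_ b3
                rw [hδ.symm]
                omega
              exact (hT.one z p c1).1 c3 h8
    · rcases a2 with a2 | ⟨a2, a3⟩
      · exact hcyc2 p q z a1 h2 h3 a2 h5 h6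
      · rcases h5 with ⟨b1, b2⟩ | ⟨b1, b2⟩
        · rcases h6 with ⟨c1, c2⟩ | ⟨c1, c2⟩
          · exact hcyc1 q z p b1 c1 (by rw [hδ.symm]; exact h1) b2 c2
              (Or.inr ⟨a1, Or.inr ⟨a2, a3⟩⟩)
          · rcases c2 with c2 | ⟨c2, c3⟩
            · exact hcyc2 z p q c1 h1 (by rw [hδ.symm]; exact h2) c2
                (Or.inr ⟨a1, Or.inr ⟨a2, a3⟩⟩) (Or.inl ⟨b1, b2⟩)
            · -- `z p` and `p q` are far
              have h8 : T q p := by
                refine hT.two z q p c1 (by rw [hδ.symm]; exact a1) ?_ c3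
                rw [hδ.symm]
                omega
              exact (hT.one p q a1).1 a3 h8
        · rcases b2 with b2 | ⟨b2, b3⟩
          · exact hcyc2 q z p b1 (by rw [hδ.symm]; exact h3) (by rw [hδ.symm]; exact h1) b2 h6
              (Or.inr ⟨a1, Or.inr ⟨a2, a3⟩⟩)
          · rcases h6 with ⟨c1, c2⟩ | ⟨c1, c2⟩
            · -- `p q` and `q z` are far
              have h8 : T z q := by
                refine hT.two p z q a1 (by rw [hδ.symm]; exact b1) ?_ a3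
                rw [hδ.symm]
                omega
              exact (hT.one q z b1).1 b3 h8
            · rcases c2 with c2 | ⟨c2, c3⟩
              · exact hcyc2 z p q c1 h1 (by rw [hδ.symm]; exact h2) c2
                  (Or.inr ⟨a1, Or.inr ⟨a2, a3⟩⟩) (Or.inr ⟨b1, Or.inr ⟨b2, b3⟩⟩)
              · exact hT.three p q z a1 b1 (by rw [hδ.symm]; exact c1) a3 b3 c3
  refine ⟨hirr, htot, fun p q z h1 h2 h3 h4 h5 => ?_⟩
  by_cases hpz : p = z
  · subst hpz
    exact absurd h5 (hasy _ _ h4)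
  · rcases htot p z h3 hpz with h6 | h6
    · exact h6
    · exact absurd h6 (hcyc p q z h1 h2 h3 h4 h5)

/-- the relations of all radii; the radius is `d + 1` -/
def It (δ : X → X → ℕ) (T r : X → X → Prop) : ℕ → X → X → Prop
  | 0 => r
  | d + 1 => Nxt δ T (d + 1) (It δ T r d)

theorem it_succ {d : ℕ} {p q : X} (h : δ p q ≤ d + 1) :
    It δ T r (d + 1) p q ↔ It δ T r d p q := by
  show Nxt δ T (d + 1) (It δ T r d) p q ↔ _
  unfold Nxt
  constructor
  · rintro (⟨-, h1⟩ | ⟨h1, -⟩)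
    · exact h1
    · omega
  · exact fun h1 => Or.inl ⟨h, h1⟩

theorem it_add {d : ℕ} {p q : X} (h : δ p q ≤ d + 1) :
    ∀ k, It δ T r (d + k) p q ↔ It δ T r d p q
  | 0 => Iff.rfl
  | k + 1 => by
    show It δ T r (d + k + 1) p q ↔ _
    rw [it_succ (by omega), it_add h k]

/-- the linear order -/
def Lim (δ : X → X → ℕ) (T r : X → X → Prop) (p q : X) : Prop := It δ T r (δ p q) p q

theorem lim_iff {d : ℕ} {p q : X} (h : δ p q ≤ d + 1) : Lim δ T r p q ↔ It δ T r d p q := by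
  unfold Lim
  rcases Nat.le_total (δ p q) d with h1 | h1
  · obtain ⟨k, rfl⟩ := Nat.exists_eq_add_of_le h1
    exact (it_add (by omega) k).symm
  · obtain ⟨k, hk⟩ := Nat.exists_eq_add_of_le h1
    rw [hk]
    exact it_add h k

theorem it_lo (hδ : Hyp δ) (hT : ∀ D, 2 ≤ D → Turn δ T D) (hr : LO δ 1 r) :
    ∀ d, LO δ (d + 1) (It δ T r d)
  | 0 => hr
  | d + 1 => (it_lo hδ hT hr d).next hδ (hT _ (by omega))

theorem lim_irr (hδ : Hyp δ) (_ : ∀ D, 2 ≤ D → Turn δ T D) (hr : LO δ 1 r) (p : X) :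
    ¬ Lim δ T r p p := by
  rw [lim_iff (d := 0) (by rw [hδ.zero]; omega)]
  exact hr.irr p

theorem lim_tot (hδ : Hyp δ) (hT : ∀ D, 2 ≤ D → Turn δ T D) (hr : LO δ 1 r) {p q : X}
    (h : p ≠ q) : Lim δ T r p q ∨ Lim δ T r q p := by
  rw [lim_iff (d := δ p q) (by omega), lim_iff (d := δ p q) (by rw [hδ.symm]; omega)]
  exact (it_lo hδ hT hr _).tot p q (by omega) h

theorem lim_tr (hδ : Hyp δ) (hT : ∀ D, 2 ≤ D → Turn δ T D) (hr : LO δ 1 r) {p q z : X}
    (h1 : Lim δ T r p q) (h2 : Lim δ T r q z) : Lim δ T r p z := by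
  obtain ⟨d, hd⟩ : ∃ d, d = δ p q + δ q z + δ p z := ⟨_, rfl⟩
  rw [lim_iff (d := d) (by omega)] at h1 h2 ⊢
  exact (it_lo hδ hT hr d).tr p q z (by omega) (by omega) (by omega) h1 h2

end Pool.Agent.H2.MM
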