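import Pool.Agent.H2.MM.Code
import Pool.Agent.H2.VC.Meas

set_option autoImplicit false

/-!
Measurability of the decoding map, and the dichotomy for linear orders with staircase relations.
-/

namespace Pool.Agent.H2.MM

open Set MeasureTheory
open Pool.Agent.Y560.TH (XB HD IsoB transfer S_TD)
open Pool.Agent.W889.VC (BP)
open Pool.Agent.Y576.TH (isoB_symm isoB_trans analytic_isoB bsB b_1 b_2 b_3)
open Pool.Agent.H2.VC (ZB IsoZ Pe enp enp_inj enp_mem enp_sur isoZ_symm isoZ_trans bp_sub bp_sub2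
  p1 p2 p3 p_enp p_g cfg inf_iff std bsZ analytic_isoZ)

theorem p_lz (m n : ℕ) : BP fun y : XB (FreeGroup ℕ) => Lz (DM y) m n :=
  bp_sub2 (g := fun y : XB (FreeGroup ℕ) => enp y m)
    (g' := fun y : XB (FreeGroup ℕ) => enp y n) (P := fun y k l => y.1 0 k l = true)
    (p_enp m) (p_enp n) fun k l => p1 _ k l

theorem p_rz (j m n : ℕ) : BP fun y : XB (FreeGroup ℕ) => Rz (DM y) j m n :=
  bp_sub2 (g := fun y : XB (FreeGroup ℕ) => enp y n)
    (g' := fun y : XB (FreeGroup ℕ) => y.2.1 (FreeGroup.of j) (enp y m))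
    (P := fun y k l => y.1 0 k l = true) (p_enp n) (p_g _ m) fun k l => p1 _ k l

theorem p_it : ∀ (d : ℕ) (p q : FreeGroup ℕ × ℕ),
    BP fun y : XB (FreeGroup ℕ) => It ds Tn (Bs (Lz (DM y)) (Rz (DM y))) d p q
  | 0, p, q => by
    refine ((BP.const _).and (p_lz _ _)).or (BP.or ?_ ?_)
    · exact BP.ex fun j => (BP.const _).and (p_rz j _ _)
    · exact BP.ex fun j => (BP.const _).and (p_rz j _ _).not
  | d + 1, p, q => by
    have : Countable (FreeGroup ℕ) := cfg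
    have hs : ∀ p q, BP fun y : XB (FreeGroup ℕ) =>
        Sep ds (d + 1) (It ds Tn (Bs (Lz (DM y)) (Rz (DM y))) d) p q := fun p q =>
      BP.ex fun z => (BP.const _).and <| (BP.const _).and <| (p_it d p z).and (p_it d z q)
    exact ((BP.const _).and (p_it d p q)).or <| (BP.const _).and <| (hs p q).or <|
      (hs q p).not.and (BP.const _)

theorem p_ord (p q : FreeGroup ℕ × ℕ) :
    BP fun y : XB (FreeGroup ℕ) => Ord (Lz (DM y)) (Rz (DM y)) p q := p_it _ p q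

theorem m_DM : Measurable (DM : XB (FreeGroup ℕ) → ZB) := by
  refine Measurable.prodMk ?_ ?_
  · refine measurable_pi_lambda _ fun i => measurable_pi_lambda _ fun m =>
      measurable_pi_lambda _ fun n => measurable_to_bool ?_
    cases i with
    | zero => exact p_lz m n
    | succ j => exact p_rz j m n
  · refine measurable_pi_lambda _ fun i => measurable_pi_lambda _ fun m =>
      measurable_to_bool ?_
    exact bp_sub (g := fun y : XB (FreeGroup ℕ) => enp y m)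
      (P := fun y k => y.2.2 (i + 1) k = true) (p_enp m) fun k => p3 _ k

theorem m_GM : MeasurableSet {y : XB (FreeGroup ℕ) | GM y} := by
  have : Countable (FreeGroup ℕ) := cfg
  have q2 : ∀ (γ δ : FreeGroup ℕ) (k l : ℕ), BP fun y : XB (FreeGroup ℕ) =>
      y.2.1 γ (y.2.1 δ k) = l := fun γ δ k l =>
    bp_sub (g := fun y : XB (FreeGroup ℕ) => y.2.1 δ k) (P := fun y a => y.2.1 γ a = l)
      (p2 δ k) fun a => p2 γ a l
  have q3 : ∀ (γ : FreeGroup ℕ) (k : ℕ), BP fun y : XB (FreeGroup ℕ) => Pe y (y.2.1 γ k) :=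
    fun γ k => bp_sub (g := fun y : XB (FreeGroup ℕ) => y.2.1 γ k) (P := fun y a => Pe y a)
      (p2 γ k) fun a => p3 0 a
  have h1 : BP fun y : XB (FreeGroup ℕ) =>
      (∀ k, y.2.1 1 k = k) ∧
      (∀ (γ δ : FreeGroup ℕ) (k l : ℕ), y.2.1 (γ * δ) k = l ↔ y.2.1 γ (y.2.1 δ k) = l) ∧
      (∀ (γ : FreeGroup ℕ) (i k l : ℕ),
        y.1 i (y.2.1 γ k) (y.2.1 γ l) = true ↔ y.1 i k l = true) ∧
      (∀ k, ∃ γ, Pe y (y.2.1 γ k)) ∧
      (∀ γ k, Pe y k → Pe y (y.2.1 γ k) → γ = 1) ∧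
      (∀ n, ∃ k, n < k ∧ Pe y k) ∧
      (∀ i k, y.2.2 (i + 1) k = true → Pe y k) ∧
      (∀ i k l, ¬ y.1 (i + 1) k l = true) ∧
      (∀ g m n, y.1 0 (enp y m) (y.2.1 g (enp y n)) = true ↔ Oz (DM y) g m n) := by
    refine (BP.all fun k => p2 1 k k).and ?_
    refine (BP.all fun γ => BP.all fun δ => BP.all fun k => BP.all fun l =>
      (p2 _ k l).iff (q2 γ δ k l)).and ?_
    refine (BP.all fun γ => BP.all fun i => BP.all fun k => BP.all fun l =>
      (bp_sub2 (g := fun y : XB (FreeGroup ℕ) => y.2.1 γ k)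
        (g' := fun y : XB (FreeGroup ℕ) => y.2.1 γ l) (P := fun y a b => y.1 i a b = true)
        (p2 γ k) (p2 γ l) fun a b => p1 i a b).iff (p1 i k l)).and ?_
    refine (BP.all fun k => BP.ex fun γ => q3 γ k).and ?_
    refine (BP.all fun γ => BP.all fun k => (p3 0 k).imp ((q3 γ k).imp (BP.const _))).and ?_
    refine (BP.all fun n => BP.ex fun k => (BP.const _).and (p3 0 k)).and ?_
    refine (BP.all fun i => BP.all fun k => (p3 (i + 1) k).imp (p3 0 k)).and ?_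
    refine (BP.all fun i => BP.all fun k => BP.all fun l => (p1 _ k l).not).and ?_
    refine BP.all fun g => BP.all fun m => BP.all fun n => BP.iff ?_ ?_
    · exact bp_sub2 (g := fun y : XB (FreeGroup ℕ) => enp y m)
        (g' := fun y : XB (FreeGroup ℕ) => y.2.1 g (enp y n)) (P := fun y a b => y.1 0 a b = true)
        (p_enp m) (p_g g n) fun a b => p1 0 a b
    · exact p_ord _ _
  refine h1.congr fun y => ⟨?_, fun h => ?_⟩
  · rintro ⟨k1, k2, k3, k4, k5, k6, k7, k8, k9⟩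
    exact ⟨k1, fun γ δ k => ((k2 γ δ k _).2 rfl), fun γ i k l => Bool.eq_iff_iff.2 (k3 γ i k l),
      k4, k5, (inf_iff y).2 k6, k7, fun i k l => by
        rw [← Bool.not_eq_true]
        exact k8 i k l, k9⟩
  · exact ⟨h.one, fun γ δ k l => by rw [h.mul], fun γ i k l => by rw [h.auto], h.cov, h.free,
      (inf_iff y).1 h.inf, h.sub, fun i k l => by rw [h.oth]; exact Bool.false_ne_true,
      h.con⟩

/-- The dichotomy for linear orders with staircase relations and unary predicates. -/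
theorem mainM (B : Set ZB) (hB : MeasurableSet B) (hG : ∀ x ∈ B, MZ x)
    (hinv : ∀ x ∈ B, ∀ (y : ZB) (σ : Equiv.Perm ℕ), IsoZ σ x y → y ∈ B) :
    (∃ f : ℕ → ZB, ∀ x ∈ B, ∃ n, ∃ σ : Equiv.Perm ℕ, IsoZ σ (f n) x) ∨
    (∃ c : (ℕ → Bool) → ZB, Continuous c ∧ (∀ A, c A ∈ B) ∧
      ∀ A A', (∃ σ : Equiv.Perm ℕ, IsoZ σ (c A) (c A')) → A = A') := by
  have : Countable (FreeGroup ℕ) := cfg
  have b1 : BorelSpace (XB (FreeGroup ℕ)) := bsB
  have b2 : BorelSpace ZB := bsZ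
  set A : Set (XB (FreeGroup ℕ)) := {y | DM y ∈ B ∧ GM y} with hAdef
  have hAm : MeasurableSet A := (m_DM hB).inter m_GM
  have hAi : ∀ y ∈ A, ∀ (y' : XB (FreeGroup ℕ)) (σ : Equiv.Perm ℕ), IsoB σ y y' → y' ∈ A := by
    rintro y ⟨h1, h2⟩ y' σ hσ
    obtain ⟨h3, τ, hτ⟩ := gm_inv h2 hσ
    exact ⟨hinv _ h1 _ τ hτ, h3⟩
  refine transfer (EX := fun x y : XB (FreeGroup ℕ) => ∃ σ : Equiv.Perm ℕ, IsoB σ x y)
    (EY := fun x y : ZB => ∃ σ : Equiv.Perm ℕ, IsoZ σ x y) ?_ ?_ ?_ DM m_DM A B ?_ ?_ ?_ ?_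
    ?_ (std (FreeGroup ℕ) A hAm (fun y hy => gm_hd hy.2 (hG _ hy.1)) hAi)
  · rintro x y ⟨σ, hσ⟩
    exact ⟨_, isoB_symm hσ⟩
  · rintro x y z ⟨σ, hσ⟩ ⟨τ, hτ⟩
    exact ⟨_, isoB_trans hσ hτ⟩
  · rintro x y z ⟨σ, hσ⟩ ⟨τ, hτ⟩
    exact ⟨_, isoZ_trans hσ hτ⟩
  · exact fun y hy => hy.1
  · intro x hx
    obtain ⟨y, hy, σ, hσ⟩ := gm_ex (x := x)
    exact ⟨y, ⟨hinv x hx _ _ (isoZ_symm hσ), hy⟩, σ, hσ⟩
  · rintro y y' ⟨h1, h2⟩ ⟨σ, hσ⟩
    obtain ⟨h3, τ, hτ⟩ := gm_inv h2 (isoB_symm hσ)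
    exact ⟨_, isoZ_symm hτ⟩
  · rintro y ⟨h1, h2⟩
    refine ⟨{y}, Set.countable_singleton y, ?_⟩
    rintro y' ⟨h3, h4⟩ ⟨σ, hσ⟩
    exact ⟨y, rfl, gm_uni h2 h4 hσ⟩
  · exact fun u hu => analytic_isoZ u hu

end Pool.Agent.H2.MM
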