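import Pool.Agent.H2.MM.Meas
import Pool.Agent.H2.VC.Tr

set_option autoImplicit false

/-!
Relations of arbitrary arities which are preserved by the minimum and the maximum of a linear order
are given by staircase relations.
-/

namespace Pool.Agent.H2.MM

open Set MeasureTheory
open Pool.Agent.W889.VC (BP)
open Pool.Agent.H533R2.VO (RS)
open Pool.Agent.H533R2.VS (US UIso UDich VCu)
open Pool.Agent.H2.VC (ZB IsoZ pr comp_pr isoZ_symm isoZ_trans bsZ)

/-- linear orders -/
structure Lin (le : ℕ → ℕ → Prop) : Prop where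
  refl : ∀ u, le u u
  anti : ∀ u v, le u v → le v u → u = v
  trans : ∀ u v w, le u v → le v w → le u w
  total : ∀ u v, le u v ∨ le v u

open Classical in
/-- the minimum -/
noncomputable def mn (le : ℕ → ℕ → Prop) (u v : ℕ) : ℕ := if le u v then u else v

open Classical in
/-- the maximum -/
noncomputable def mx (le : ℕ → ℕ → Prop) (u v : ℕ) : ℕ := if le u v then v else u

/-- closed relations -/
def Cl (m : ℕ → ℕ → ℕ) {n : ℕ} (S : (Fin n → ℕ) → Prop) : Prop :=
  ∀ s t, S s → S t → S fun j => m (s j) (t j)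

section lin

variable {le : ℕ → ℕ → Prop} (h : Lin le)

include h

theorem mn_le_left (u v : ℕ) : le (mn le u v) u := by
  unfold mn
  split_ifs with h1
  · exact h.refl u
  · exact (h.total u v).resolve_left h1

theorem mn_le_right (u v : ℕ) : le (mn le u v) v := by
  unfold mn
  split_ifs with h1
  · exact h1
  · exact h.refl v

omit h in
theorem le_mn {w u v : ℕ} (h1 : le w u) (h2 : le w v) : le w (mn le u v) := by
  unfold mn
  split_ifs
  · exact h1
  · exact h2

theorem le_mx_left (u v : ℕ) : le u (mx le u v) := by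
  unfold mx
  split_ifs with h1
  · exact h1
  · exact h.refl u

theorem le_mx_right (u v : ℕ) : le v (mx le u v) := by
  unfold mx
  split_ifs with h1
  · exact h.refl v
  · exact (h.total u v).resolve_left h1

omit h in
theorem mx_le {w u v : ℕ} (h1 : le u w) (h2 : le v w) : le (mx le u v) w := by
  unfold mx
  split_ifs
  · exact h2
  · exact h1

/-- A relation which is closed under minima and maxima is determined by the comparisons of pairs of
coordinates. -/
theorem bakerp {n : ℕ} {S : (Fin n → ℕ) → Prop} (h1 : Cl (mn le) S) (h2 : Cl (mx le) S)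
    (w : Fin n → ℕ) (h0 : ∃ t, S t)
    (h3 : ∀ k l, ∃ t, S t ∧ le (t k) (w k) ∧ le (w l) (t l)) : S w := by
  have k1 : ∀ (k : Fin n) (F : Finset (Fin n)), ∃ s, S s ∧ le (s k) (w k) ∧
      ∀ l ∈ F, le (w l) (s l) := by
    intro k F
    induction F using Finset.induction_on with
    | empty =>
      obtain ⟨t, ht, h4, -⟩ := h3 k k
      exact ⟨t, ht, h4, fun l hl => absurd hl (Finset.notMem_empty l)⟩
    | insert l F _ ih =>
      obtain ⟨s, hs, h4, h5⟩ := ih
      obtain ⟨t, ht, h6, h7⟩ := h3 k l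
      refine ⟨_, h2 s t hs ht, mx_le h4 h6, fun l' hl' => ?_⟩
      rcases Finset.mem_insert.1 hl' with rfl | hl'
      · exact h.trans _ _ _ h7 (le_mx_right h _ _)
      · exact h.trans _ _ _ (h5 l' hl') (le_mx_left h _ _)
  have k2 : ∀ G : Finset (Fin n), ∃ s, S s ∧ (∀ k ∈ G, le (s k) (w k)) ∧ ∀ l, le (w l) (s l) := by
    intro G
    induction G using Finset.induction_on with
    | empty =>
      rcases Nat.eq_zero_or_pos n with hn | hn
      · subst hn
        obtain ⟨t, ht⟩ := h0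
        exact ⟨t, ht, fun k => k.elim0, fun l => l.elim0⟩
      · obtain ⟨s, hs, -, h5⟩ := k1 ⟨0, hn⟩ Finset.univ
        exact ⟨s, hs, fun k hk => absurd hk (Finset.notMem_empty k),
          fun l => h5 l (Finset.mem_univ l)⟩
    | insert k G _ ih =>
      obtain ⟨s, hs, h4, h5⟩ := ih
      obtain ⟨t, ht, h6, h7⟩ := k1 k Finset.univ
      refine ⟨_, h1 s t hs ht, fun k' hk' => ?_, fun l => le_mn (h5 l)
        (h7 l (Finset.mem_univ l))⟩
      rcases Finset.mem_insert.1 hk' with rfl | hk'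
      · exact h.trans _ _ _ (mn_le_right h _ _) h6
      · exact h.trans _ _ _ (mn_le_left h _ _) (h4 k' hk')
  obtain ⟨s, hs, h4, h5⟩ := k2 Finset.univ
  have : s = w := funext fun j => h.anti _ _ (h4 j (Finset.mem_univ j)) (h5 j)
  rw [← this]
  exact hs

end lin

variable {a : ℕ → ℕ}

/-- the order -/
def Ql (x : RS a) (q u v : ℕ) : Prop := x q (pr u v) = true

/-- the class: minimum and maximum are polymorphisms -/
def Pm (q : ℕ) (x : RS a) : Prop := Lin (Ql x q) ∧ ∀ i, Cl (mn (Ql x q)) (fun t => x i t = true) ∧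
  Cl (mx (Ql x q)) fun t => x i t = true

/-- the staircase relations of the relation `i` -/
def St (x : RS a) (q i k l u v : ℕ) : Prop := ∃ t : Fin (a i) → ℕ, x i t = true ∧
  (∀ h : k < a i, Ql x q (t ⟨k, h⟩) u) ∧ ∀ h : l < a i, Ql x q v (t ⟨l, h⟩)

/-- the number of a triple -/
def en (i k l : ℕ) : ℕ := Nat.pair i (Nat.pair k l)

theorem un_en (i k l : ℕ) : (Nat.unpair (en i k l)).1 = i ∧
    (Nat.unpair (Nat.unpair (en i k l)).2).1 = k ∧
    (Nat.unpair (Nat.unpair (en i k l)).2).2 = l := by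
  unfold en
  simp

/-- the relation with a given number -/
def Sj (x : RS a) (q j u v : ℕ) : Prop :=
  St x q (Nat.unpair j).1 (Nat.unpair (Nat.unpair j).2).1 (Nat.unpair (Nat.unpair j).2).2 u v

theorem sj_en (x : RS a) (q i k l u v : ℕ) : Sj x q (en i k l) u v ↔ St x q i k l u v := by
  unfold Sj
  obtain ⟨h1, h2, h3⟩ := un_en i k l
  rw [h1, h2, h3]

open Classical in
/-- the coding map -/
noncomputable def Th (q : ℕ) (x : US a) : ZB :=
  (fun i u v => match i with
    | 0 => decide (Ql x.1 q u v ∧ u ≠ v)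
    | j + 1 => decide (Sj x.1 q j u v), x.2)

open Classical in
/-- the decoding map -/
noncomputable def Xi (a : ℕ → ℕ) (z : ZB) : US a :=
  (fun i w => decide (∀ k l : Fin (a i), z.1 (en i k l + 1) (w k) (w l) = true) &&
    z.1 (en i (a i) (a i) + 1) 0 0, z.2)

theorem lz_th (q : ℕ) (x : US a) (u v : ℕ) : Lz (Th q x) u v ↔ Ql x.1 q u v ∧ u ≠ v := by
  classical
  exact decide_eq_true_iff

theorem rz_th (q : ℕ) (x : US a) (j u v : ℕ) : Rz (Th q x) j u v ↔ Sj x.1 q j u v := by
  classical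
  exact decide_eq_true_iff

theorem th_en (q : ℕ) (x : US a) (i k l u v : ℕ) :
    (Th q x).1 (en i k l + 1) u v = true ↔ St x.1 q i k l u v :=
  (rz_th q x _ u v).trans (sj_en _ _ _ _ _ _ _)

theorem st_top (x : RS a) (q i u v : ℕ) : St x q i (a i) (a i) u v ↔ ∃ t, x i t = true := by
  constructor
  · rintro ⟨t, ht, -⟩
    exact ⟨t, ht⟩
  · rintro ⟨t, ht⟩
    exact ⟨t, ht, fun h => absurd h (lt_irrefl _), fun h => absurd h (lt_irrefl _)⟩

theorem xi_th {q : ℕ} {x : US a} (h : Pm q x.1) : Xi a (Th q x) = x := by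
  classical
  refine Prod.ext ?_ rfl
  funext i w
  show (decide (∀ k l : Fin (a i), (Th q x).1 (en i k l + 1) (w k) (w l) = true) &&
    (Th q x).1 (en i (a i) (a i) + 1) 0 0) = x.1 i w
  rw [Bool.eq_iff_iff, Bool.and_eq_true, decide_eq_true_iff, th_en, st_top]
  constructor
  · rintro ⟨h1, h2⟩
    refine bakerp h.1 (S := fun t => x.1 i t = true) (h.2 i).1 (h.2 i).2 w h2 fun k l => ?_
    obtain ⟨t, ht, h3, h4⟩ := (th_en q x i k l _ _).1 (h1 k l)
    exact ⟨t, ht, h3 k.isLt, h4 l.isLt⟩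
  · intro h1
    refine ⟨fun k l => (th_en q x i k l _ _).2 ⟨w, h1, fun _ => h.1.refl _, fun _ => h.1.refl _⟩,
      w, h1⟩

theorem mz_th {q : ℕ} {x : US a} (h : Pm q x.1) : MZ (Th q x) := by
  have hL := h.1
  refine ⟨?_, ?_, ?_, ?_, ?_⟩
  · intro m h1
    rw [lz_th] at h1
    exact h1.2 rfl
  · intro m n k h1 h2
    rw [lz_th] at h1 h2 ⊢
    refine ⟨hL.trans _ _ _ h1.1 h2.1, ?_⟩
    rintro rfl
    exact h1.2 (hL.anti _ _ h1.1 h2.1)
  · intro m n hmn
    rw [lz_th, lz_th]
    rcases hL.total m n with h1 | h1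
    · exact Or.inl ⟨h1, hmn⟩
    · exact Or.inr ⟨h1, hmn.symm⟩
  · intro j m m' n h1 h2
    rw [rz_th] at h1 ⊢
    rw [lz_th] at h2
    obtain ⟨t, ht, h3, h4⟩ := h1
    exact ⟨t, ht, fun hk => hL.trans _ _ _ (h3 hk) h2.1, h4⟩
  · intro j m n n' h1 h2
    rw [rz_th] at h1 ⊢
    rw [lz_th] at h2
    obtain ⟨t, ht, h3, h4⟩ := h1
    exact ⟨t, ht, h3, fun hk => hL.trans _ _ _ h2.1 (h4 hk)⟩

section iso

variable {x y : US a} {σ : Equiv.Perm ℕ}
  (hσ : (∀ (i : ℕ) (v : Fin (a i) → ℕ), y.1 i (⇑σ ∘ v) = x.1 i v) ∧ ∀ i u, y.2 i (σ u) = x.2 i u)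

include hσ

theorem ql_iso (q u v : ℕ) : Ql y.1 q (σ u) (σ v) ↔ Ql x.1 q u v := by
  unfold Ql
  rw [← comp_pr, hσ.1]

theorem st_iso (q i k l u v : ℕ) : St y.1 q i k l (σ u) (σ v) ↔ St x.1 q i k l u v := by
  constructor
  · rintro ⟨t, ht, h1, h2⟩
    have e : ⇑σ ∘ (⇑σ.symm ∘ t) = t := funext fun j => σ.apply_symm_apply _
    refine ⟨⇑σ.symm ∘ t, ?_, fun hk => ?_, fun hk => ?_⟩
    · rw [← hσ.1, e]
      exact ht
    · rw [← ql_iso hσ]
      show Ql y.1 q (σ (σ.symm (t _))) (σ u)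
      rw [σ.apply_symm_apply]
      exact h1 hk
    · rw [← ql_iso hσ]
      show Ql y.1 q (σ v) (σ (σ.symm (t _)))
      rw [σ.apply_symm_apply]
      exact h2 hk
  · rintro ⟨t, ht, h1, h2⟩
    exact ⟨⇑σ ∘ t, by rw [hσ.1]; exact ht, fun hk => (ql_iso hσ _ _ _).2 (h1 hk),
      fun hk => (ql_iso hσ _ _ _).2 (h2 hk)⟩

theorem th_iso (q : ℕ) : IsoZ σ (Th q x) (Th q y) := by
  refine ⟨fun i m n => ?_, hσ.2⟩
  rw [Bool.eq_iff_iff]
  cases i with
  | zero =>
    show Lz (Th q y) (σ m) (σ n) ↔ Lz (Th q x) m n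
    rw [lz_th, lz_th, ql_iso hσ, σ.injective.ne_iff]
  | succ j =>
    show Rz (Th q y) j (σ m) (σ n) ↔ Rz (Th q x) j m n
    rw [rz_th, rz_th]
    exact st_iso hσ _ _ _ _ _ _

end iso

theorem iso_th {q : ℕ} {x y : US a} (hx : Pm q x.1) (hy : Pm q y.1) {σ : Equiv.Perm ℕ}
    (h : IsoZ σ (Th q x) (Th q y)) : UIso x y := by
  classical
  refine ⟨σ, fun i v => ?_, h.2⟩
  have ex : Xi a (Th q x) = x := xi_th hx
  have ey : Xi a (Th q y) = y := xi_th hy
  have hx1 : x.1 i v = (Xi a (Th q x)).1 i v := by rw [ex]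
  have hy1 : y.1 i (⇑σ ∘ v) = (Xi a (Th q y)).1 i (⇑σ ∘ v) := by rw [ey]
  rw [hx1, hy1]
  show (decide (∀ k l : Fin (a i), (Th q y).1 (en i k l + 1) (σ (v k)) (σ (v l)) = true) &&
    (Th q y).1 (en i (a i) (a i) + 1) 0 0) =
    (decide (∀ k l : Fin (a i), (Th q x).1 (en i k l + 1) (v k) (v l) = true) &&
    (Th q x).1 (en i (a i) (a i) + 1) 0 0)
  have e0 : (Th q y).1 (en i (a i) (a i) + 1) 0 0 = (Th q x).1 (en i (a i) (a i) + 1) 0 0 := by
    rw [← h.1 _ 0 0, Bool.eq_iff_iff, th_en, th_en, st_top, st_top]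
  have e1 : (∀ k l : Fin (a i), (Th q y).1 (en i k l + 1) (σ (v k)) (σ (v l)) = true) ↔
      ∀ k l : Fin (a i), (Th q x).1 (en i k l + 1) (v k) (v l) = true := by
    simp only [h.1]
  rw [e0]
  congr 1
  rw [Bool.eq_iff_iff, decide_eq_true_iff, decide_eq_true_iff]
  exact e1

theorem bp_at (i : ℕ) (v : Fin (a i) → ℕ) : BP (fun x : US a => x.1 i v = true) := by
  have h1 : Measurable fun x : US a => x.1 i v :=
    (measurable_pi_apply v).comp ((measurable_pi_apply i).comp measurable_fst)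
  exact h1 (measurableSet_singleton true)

theorem bp_all {X : Type} [MeasurableSpace X] {c : Prop} {P : c → X → Prop}
    (h : ∀ k, BP (P k)) : BP fun x => ∀ k, P k x := by
  by_cases hc : c
  · exact (h hc).congr fun x => ⟨fun h1 _ => h1, fun h1 => h1 hc⟩
  · exact (BP.const True).congr fun x => ⟨fun _ k => absurd k hc, fun _ => trivial⟩

theorem bp_st (q i k l u v : ℕ) : BP (fun x : US a => St x.1 q i k l u v) :=
  BP.ex fun _ => (bp_at _ _).and <| (bp_all fun _ => bp_at _ _).and (bp_all fun _ => bp_at _ _)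

theorem m_th (q : ℕ) : Measurable (Th q : US a → ZB) := by
  refine Measurable.prodMk ?_ measurable_snd
  refine measurable_pi_lambda _ fun i => measurable_pi_lambda _ fun m =>
    measurable_pi_lambda _ fun n => measurable_to_bool ?_
  cases i with
  | zero =>
    have h : BP fun x : US a => Lz (Th q x) m n :=
      ((bp_at q (pr m n)).and (BP.const (m ≠ n))).congr fun x => (lz_th q x m n).symm
    exact h
  | succ j =>
    have h : BP fun x : US a => Rz (Th q x) j m n :=
      (bp_st q _ _ _ m n).congr fun x => (rz_th q x j m n).symm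
    exact h

theorem c_dec {X : Type} [TopologicalSpace X] {p : X → Prop} [∀ x, Decidable (p x)]
    (h : IsClopen {x | p x}) : Continuous fun x => decide (p x) := by
  rw [continuous_discrete_rng]
  intro b
  cases b with
  | false =>
    have e : (fun x => decide (p x)) ⁻¹' {false} = {x | p x}ᶜ := by
      ext x
      simp
    rw [e]
    exact h.compl.isOpen
  | true =>
    have e : (fun x => decide (p x)) ⁻¹' {true} = {x | p x} := by
      ext x
      simp
    rw [e]
    exact h.isOpen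

theorem c_xi (a : ℕ → ℕ) : Continuous (Xi a) := by
  classical
  refine Continuous.prodMk ?_ continuous_snd
  refine continuous_pi fun i => continuous_pi fun w => ?_
  have hc : ∀ j u v, Continuous fun z : ZB => z.1 j u v := fun j u v =>
    (continuous_apply v).comp ((continuous_apply u).comp ((continuous_apply j).comp
      continuous_fst))
  refine (continuous_of_discreteTopology (f := fun p : Bool × Bool => p.1 && p.2)).comp
    (Continuous.prodMk (c_dec ?_) (hc _ _ _))
  have e : {z : ZB | ∀ k l : Fin (a i), z.1 (en i k l + 1) (w k) (w l) = true} =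
      ⋂ k : Fin (a i), ⋂ l : Fin (a i), {z : ZB | z.1 (en i k l + 1) (w k) (w l) = true} := by
    ext z
    simp only [Set.mem_ofPred_eq, Set.mem_iInter]
  rw [e]
  refine isClopen_iInter_of_finite fun k => isClopen_iInter_of_finite fun l => ?_
  exact (isClopen_discrete {true}).preimage (hc _ _ _)

/-- The dichotomy for the structures with the polymorphisms minimum and maximum. -/
theorem vcu_pm (q : ℕ) : VCu (Pm q : RS a → Prop) := by
  intro B hB hi hV
  have b2 : BorelSpace ZB := bsZ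
  set B' : Set ZB := {z | Xi a z ∈ B ∧ Th q (Xi a z) = z} with hB'
  have hmB : MeasurableSet B' := by
    refine ((c_xi a).measurable hB).inter ?_
    have hc : Measurable fun z : ZB => Th q (Xi a z) := (m_th q).comp (c_xi a).measurable
    exact measurableSet_eq_fun hc measurable_id
  have hBT : ∀ x ∈ B, Th q x ∈ B' := fun x hx => by
    refine ⟨?_, ?_⟩
    · rw [xi_th (hV x hx)]
      exact hx
    · rw [xi_th (hV x hx)]
  have hmain := mainM B' hmB ?_ ?_
  · rcases hmain with ⟨f, hf⟩ | ⟨c, c1, c2, c3⟩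
    · left
      classical
      refine ⟨fun n => if h : ∃ x ∈ B, ∃ σ : Equiv.Perm ℕ, IsoZ σ (f n) (Th q x) then h.choose
        else (fun _ _ => false, fun _ _ => false), fun x hx => ?_⟩
      obtain ⟨n, σ, hn⟩ := hf _ (hBT x hx)
      refine ⟨n, ?_⟩
      have hex : ∃ x ∈ B, ∃ σ : Equiv.Perm ℕ, IsoZ σ (f n) (Th q x) := ⟨x, hx, σ, hn⟩
      show UIso (if h : ∃ x ∈ B, ∃ σ : Equiv.Perm ℕ, IsoZ σ (f n) (Th q x) then h.choose
        else (fun _ _ => false, fun _ _ => false)) x
      rw [dif_pos hex]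
      obtain ⟨hB2, τ, hτ⟩ := hex.choose_spec
      exact iso_th (hV _ hB2) (hV _ hx) (isoZ_trans (isoZ_symm hτ) hn)
    · right
      refine ⟨fun A => Xi a (c A), (c_xi a).comp c1, fun A => (c2 A).1, fun A A' h => c3 A A' ?_⟩
      obtain ⟨σ, hσ⟩ := h
      have h1 := th_iso hσ q
      rw [(c2 A).2, (c2 A').2] at h1
      exact ⟨σ, h1⟩
  · rintro z ⟨h1, h2⟩
    rw [← h2]
    exact mz_th (hV _ h1)
  · rintro z ⟨h1, h2⟩ z' σ hσ
    obtain ⟨x, hx⟩ : ∃ x, x = Xi a z := ⟨_, rfl⟩
    rw [← hx] at h1 h2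
    subst h2
    let y : US a := (fun i v => x.1 i (⇑σ.symm ∘ v), fun i m => x.2 i (σ.symm m))
    have hy : (∀ (i : ℕ) (v : Fin (a i) → ℕ), y.1 i (⇑σ ∘ v) = x.1 i v) ∧
        ∀ i u, y.2 i (σ u) = x.2 i u := by
      refine ⟨fun i v => ?_, fun i u => ?_⟩
      · have e2 : ⇑σ.symm ∘ (⇑σ ∘ v) = v := funext fun j => σ.symm_apply_apply _
        show x.1 i (⇑σ.symm ∘ (⇑σ ∘ v)) = x.1 i v
        rw [e2]
      · show x.2 i (σ.symm (σ u)) = x.2 i u
        rw [σ.symm_apply_apply]
    have h3 := th_iso hy q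
    have e1 : z' = Th q y := by
      refine Prod.ext ?_ ?_
      · funext i m n
        have k1 := hσ.1 i (σ.symm m) (σ.symm n)
        have k2 := h3.1 i (σ.symm m) (σ.symm n)
        rw [σ.apply_symm_apply, σ.apply_symm_apply] at k1 k2
        rw [k1, k2]
      · funext i m
        have k1 := hσ.2 i (σ.symm m)
        have k2 := h3.2 i (σ.symm m)
        rw [σ.apply_symm_apply] at k1 k2
        rw [k1, k2]
    rw [e1]
    exact hBT _ ((hi x y ⟨σ, hy⟩).1 h1)

end Pool.Agent.H2.MM
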