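import Mathlib.GroupTheory.FreeGroup.Reduce
import Pool.Agent.H2.MM.Loc

set_option autoImplicit false

/-!
The tree of the free group: the distance of reduced words, and the decisions at the middle of a
path.
-/

namespace Pool.Agent.H2.MM

open FreeGroup

/-- words -/
abbrev Wd : Type := List (ℕ × Bool)

/-- the inverse letter -/
def il (l : ℕ × Bool) : ℕ × Bool := (l.1, !l.2)

theorem il_il (l : ℕ × Bool) : il (il l) = l := by
  obtain ⟨j, b⟩ := l
  simp [il]

/-- the length of the longest common initial segment -/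
def cp : Wd → Wd → ℕ
  | l :: u, k :: v => if l = k then cp u v + 1 else 0
  | [], _ => 0
  | _, [] => 0

theorem cp_nil (u : Wd) : cp u [] = 0 := by
  cases u <;> rfl

theorem cp_symm : ∀ u v : Wd, cp u v = cp v u
  | [], v => (cp_nil v).symm
  | u, [] => cp_nil u
  | l :: u, k :: v => by
    unfold cp
    by_cases h : l = k
    · rw [if_pos h, if_pos h.symm, cp_symm u v]
    · rw [if_neg h, if_neg (Ne.symm h)]

theorem cp_le : ∀ u v : Wd, cp u v ≤ u.length
  | [], v => Nat.zero_le _
  | l :: u, [] => Nat.zero_le _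
  | l :: u, k :: v => by
    unfold cp
    split_ifs
    · have := cp_le u v
      simp only [List.length_cons]
      omega
    · exact Nat.zero_le _

theorem cp_le' (u v : Wd) : cp u v ≤ v.length := by
  rw [cp_symm]
  exact cp_le v u

theorem cp_min : ∀ u v w : Wd, min (cp u v) (cp v w) ≤ cp u w
  | [], v, w => by
    show min 0 _ ≤ _
    omega
  | u, [], w => by
    rw [cp_nil]
    omega
  | u, v, [] => by
    rw [cp_nil v]
    omega
  | l :: u, k :: v, m :: w => by
    unfold cp
    by_cases h1 : l = k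
    · by_cases h2 : k = m
      · rw [if_pos h1, if_pos h2, if_pos (h1.trans h2)]
        have := cp_min u v w
        omega
      · rw [if_pos h1, if_neg h2]
        omega
    · rw [if_neg h1]
      omega

theorem cp_get : ∀ (u v : Wd) (i : ℕ), i < cp u v → u.getD i (0, false) = v.getD i (0, false)
  | [], v, i, h => absurd h (Nat.not_lt_zero _)
  | u, [], i, h => by
    rw [cp_nil] at h
    omega
  | l :: u, k :: v, i, h => by
    unfold cp at h
    split_ifs at h with h1
    · subst h1
      cases i with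
      | zero => rfl
      | succ i =>
        have := cp_get u v i (by omega)
        simpa using this
    · omega

theorem inv_cons (l : ℕ × Bool) (u v : Wd) :
    (mk (l :: u))⁻¹ * mk (l :: v) = (mk u)⁻¹ * mk v := by
  have h1 : mk (l :: u) = mk [l] * mk u := by
    rw [mul_mk]
    rfl
  have h2 : mk (l :: v) = mk [l] * mk v := by
    rw [mul_mk]
    rfl
  rw [h1, h2]
  group

theorem red_inv {u : Wd} (h : IsReduced u) : IsReduced (invRev u) := by
  rw [isReduced_iff_reduce_eq] at h ⊢
  rw [reduce_invRev, h]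

/-- The reduced word of the quotient. -/
theorem word_quot : ∀ u v : Wd, IsReduced u → IsReduced v →
    ((mk u)⁻¹ * mk v).toWord = invRev (u.drop (cp u v)) ++ v.drop (cp u v)
  | [], v, _, hv => by
    show ((mk [])⁻¹ * mk v).toWord = invRev ([] : Wd) ++ v.drop 0
    have : (mk ([] : Wd)) = 1 := rfl
    rw [this, inv_one, one_mul, toWord_mk, hv.reduce_eq]
    rfl
  | l :: u, [], hu, _ => by
    have : (mk ([] : Wd)) = 1 := rfl
    rw [cp_nil, this, mul_one, inv_mk, toWord_mk, (red_inv hu).reduce_eq]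
    simp
  | l :: u, k :: v, hu, hv => by
    have hu' : IsReduced u := List.IsChain.tail hu
    have hv' : IsReduced v := List.IsChain.tail hv
    by_cases h : l = k
    · subst h
      have e1 : cp (l :: u) (l :: v) = cp u v + 1 := if_pos rfl
      rw [inv_cons, word_quot u v hu' hv', e1]
      rfl
    · have e1 : cp (l :: u) (k :: v) = 0 := if_neg h
      rw [e1, List.drop_zero, List.drop_zero, inv_mk, mul_mk, toWord_mk]
      refine IsReduced.reduce_eq ?_
      show List.IsChain _ _
      rw [List.isChain_append]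
      refine ⟨red_inv hu, hv, ?_⟩
      intro x hx y hy
      have e2 : (invRev (l :: u)).getLast? = some (il l) := by
        rw [invRev_cons]
        simp [invRev, il]
      rw [e2] at hx
      have e3 : x = il l := by simpa using hx.symm
      have e4 : y = k := by simpa using hy.symm
      subst e3
      subst e4
      intro h1
      obtain ⟨j, b⟩ := l
      obtain ⟨j', b'⟩ := y
      have h1' : j = j' := h1
      subst h1'
      show (!b) = b'
      have : b ≠ b' := fun hb => h (by rw [hb])
      cases b <;> cases b' <;> simp_all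

/-- the norm of the quotient -/
theorem norm_quot (g h : FreeGroup ℕ) :
    FreeGroup.norm (g⁻¹ * h) + 2 * cp g.toWord h.toWord = FreeGroup.norm g + FreeGroup.norm h := by
  have h1 := word_quot g.toWord h.toWord isReduced_toWord isReduced_toWord
  rw [mk_toWord, mk_toWord] at h1
  have h2 := cp_le g.toWord h.toWord
  have h3 := cp_le' g.toWord h.toWord
  unfold FreeGroup.norm
  rw [h1, List.length_append, invRev_length, List.length_drop, List.length_drop]
  omega

/-- the distance -/
def ds (p q : FreeGroup ℕ × ℕ) : ℕ := FreeGroup.norm (p.1⁻¹ * q.1)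

theorem ds_quot (p q z : FreeGroup ℕ × ℕ) : ds q z + 2 * cp (p.1⁻¹ * q.1).toWord
    (p.1⁻¹ * z.1).toWord = ds p q + ds p z := by
  have h := norm_quot (p.1⁻¹ * q.1) (p.1⁻¹ * z.1)
  have e : (p.1⁻¹ * q.1)⁻¹ * (p.1⁻¹ * z.1) = q.1⁻¹ * z.1 := by group
  rw [e] at h
  exact h

theorem ds_symm (p q : FreeGroup ℕ × ℕ) : ds p q = ds q p := by
  unfold ds
  rw [← norm_inv_eq]
  congr 1
  group

theorem hyp_ds : Hyp ds where
  zero := fun p => by
    unfold ds
    rw [inv_mul_cancel, FreeGroup.norm_one]
  symm := ds_symm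
  four := fun p q z z' => by
    have h1 := ds_quot p z z'
    have h2 := ds_quot p q z'
    have h3 := ds_quot p q z
    have h4 := cp_min (p.1⁻¹ * z.1).toWord (p.1⁻¹ * q.1).toWord (p.1⁻¹ * z'.1).toWord
    rw [cp_symm (p.1⁻¹ * z.1).toWord (p.1⁻¹ * q.1).toWord] at h4
    omega

/-- the number of a letter -/
def cd (l : ℕ × Bool) : ℕ := 2 * l.1 + (if l.2 then 1 else 0)

theorem cd_inj {l k : ℕ × Bool} (h : cd l = cd k) : l = k := by
  obtain ⟨j, b⟩ := l
  obtain ⟨j', b'⟩ := k
  unfold cd at h
  cases b <;> cases b' <;> simp at h ⊢ <;> omega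

/-- the decision at the middle of a word -/
def Tw (w : Wd) : Prop :=
  if w.length % 2 = 0 then
    cd (il (w.getD (w.length / 2 - 1) (0, false))) < cd (w.getD (w.length / 2) (0, false))
  else (w.getD (w.length / 2) (0, false)).2 = true

theorem get_inv (w : Wd) {i : ℕ} (h : i < w.length) :
    (invRev w).getD i (0, false) = il (w.getD (w.length - 1 - i) (0, false)) := by
  unfold invRev
  rw [List.getD_eq_getElem?_getD, List.getD_eq_getElem?_getD, List.getElem?_reverse (by simpa using h)]
  rw [List.length_map, List.getElem?_map]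
  have h1 : w.length - 1 - i < w.length := by omega
  rw [List.getElem?_eq_getElem h1]
  rfl

theorem red_get {w : Wd} (hw : IsReduced w) {i : ℕ} (h : i + 1 < w.length) :
    w.getD (i + 1) (0, false) ≠ il (w.getD i (0, false)) := by
  have h1 : ∀ (i : ℕ) (h : i + 1 < w.length), (w[i]'(by omega)).1 = w[i + 1].1 →
      (w[i]'(by omega)).2 = w[i + 1].2 := by
    have := List.isChain_iff_getElem.1 hw
    intro i h
    exact this i h
  have h2 := h1 i h
  have e1 : w.getD i (0, false) = w[i]'(by omega) := by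
    rw [List.getD_eq_getElem?_getD, List.getElem?_eq_getElem (by omega)]
    rfl
  have e2 : w.getD (i + 1) (0, false) = w[i + 1] := by
    rw [List.getD_eq_getElem?_getD, List.getElem?_eq_getElem h]
    rfl
  rw [e1, e2]
  intro h3
  rw [h3] at h2
  have h4 := h2 rfl
  have h5 : (w[i]'(by omega)).2 = !(w[i]'(by omega)).2 := h4
  cases hb : (w[i]'(by omega)).2 <;> rw [hb] at h5 <;> simp at h5

/-- the decision -/
def Tn (p q : FreeGroup ℕ × ℕ) : Prop := Tw (p.1⁻¹ * q.1).toWord

theorem tn_one {D : ℕ} (hD : 2 ≤ D) (p q : FreeGroup ℕ × ℕ) (h : ds p q = D) :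
    Tn p q ↔ ¬ Tn q p := by
  have e : q.1⁻¹ * p.1 = (p.1⁻¹ * q.1)⁻¹ := by group
  unfold Tn
  rw [e, toWord_inv]
  have hl : (p.1⁻¹ * q.1).toWord.length = D := h
  have hr : IsReduced (p.1⁻¹ * q.1).toWord := isReduced_toWord
  revert hl hr
  generalize (p.1⁻¹ * q.1).toWord = w
  intro hl hr
  unfold Tw
  rw [invRev_length, hl, get_inv w (by omega), get_inv w (by omega), hl]
  rcases Nat.even_or_odd' D with ⟨n, rfl | rfl⟩
  · rw [if_pos (by omega), if_pos (by omega), show 2 * n / 2 = n by omega,
      show 2 * n - 1 - (n - 1) = n by omega, show 2 * n - 1 - n = n - 1 by omega, il_il]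
    have h1 := red_get hr (i := n - 1) (by omega)
    rw [show n - 1 + 1 = n by omega] at h1
    have h2 : cd (w.getD n (0, false)) ≠ cd (il (w.getD (n - 1) (0, false))) :=
      fun hc => h1 (cd_inj hc)
    omega
  · rw [if_neg (by omega), if_neg (by omega), show (2 * n + 1) / 2 = n by omega,
      show 2 * n + 1 - 1 - n = n by omega]
    unfold il
    cases (w.getD n (0, false)).2 <;> simp

theorem tw_congr {u v : Wd} (h : u.length = v.length) (hc : u.length < 2 * cp u v) :
    Tw u ↔ Tw v := by
  unfold Tw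
  rw [h] at hc ⊢
  rw [cp_get u v (v.length / 2) (by omega), cp_get u v (v.length / 2 - 1) (by omega)]

theorem tn_two {D : ℕ} (hD : 2 ≤ D) (p p' q : FreeGroup ℕ × ℕ) (h : ds p q = D)
    (h' : ds p' q = D) (h1 : ds p p' < D) (h2 : Tn p q) : Tn p' q := by
  rw [tn_one hD p' q h']
  rw [tn_one hD p q h] at h2
  intro h3
  refine h2 ((tw_congr ?_ ?_).2 h3)
  · show ds q p = ds q p'
    rw [ds_symm q p, ds_symm q p', h, h']
  · have h4 := ds_quot q p p'
    rw [ds_symm q p, ds_symm q p', h, h'] at h4
    have h5 : (q.1⁻¹ * p.1).toWord.length = D := (ds_symm q p).trans h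
    rw [h5]
    omega

theorem tn_three {D : ℕ} (hD : 2 ≤ D) (p q z : FreeGroup ℕ × ℕ) (h1 : ds p q = D)
    (h2 : ds q z = D) (h3 : ds p z = D) (h4 : Tn p q) (h5 : Tn q z) : ¬ Tn z p := by
  rw [← tn_one hD p z h3]
  have h6 := ds_quot p q z
  rw [h1, h2, h3] at h6
  have e : q.1⁻¹ * z.1 = (p.1⁻¹ * q.1)⁻¹ * (p.1⁻¹ * z.1) := by group
  have h7 := word_quot (p.1⁻¹ * q.1).toWord (p.1⁻¹ * z.1).toWord isReduced_toWord
    isReduced_toWord
  rw [mk_toWord, mk_toWord, ← e] at h7
  unfold Tn at h4 h5 ⊢
  rw [h7] at h5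
  have hu : (p.1⁻¹ * q.1).toWord.length = D := h1
  have hv : (p.1⁻¹ * z.1).toWord.length = D := h3
  have hg := cp_get (p.1⁻¹ * q.1).toWord (p.1⁻¹ * z.1).toWord
  revert h4 h5 h6 hu hv hg
  generalize (p.1⁻¹ * q.1).toWord = u
  generalize (p.1⁻¹ * z.1).toWord = v
  intro h4 h5 h6 hu hv hg
  obtain ⟨n, hn⟩ : ∃ n, n = cp u v := ⟨_, rfl⟩
  rw [← hn] at h5 h6 hg
  have hD2 : D = 2 * n := by omega
  have hlen : (invRev (u.drop n) ++ v.drop n).length = D := by
    rw [List.length_append, invRev_length, List.length_drop, List.length_drop, hu, hv]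
    omega
  unfold Tw at h4 h5 ⊢
  rw [hlen, if_pos (by omega)] at h5
  rw [hu, if_pos (by omega)] at h4
  rw [hv, if_pos (by omega)]
  have e1 : D / 2 = n := by omega
  rw [e1] at h4 h5 ⊢
  have hl1 : (invRev (u.drop n)).length = n := by
    rw [invRev_length, List.length_drop, hu]
    omega
  have e2 : (invRev (u.drop n) ++ v.drop n).getD (n - 1) (0, false) =
      il (u.getD n (0, false)) := by
    rw [List.getD_eq_getElem?_getD, List.getElem?_append_left (by rw [hl1]; omega),
      ← List.getD_eq_getElem?_getD, get_inv _ (by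
      rw [List.length_drop, hu]
      omega), List.length_drop, hu, show D - n - 1 - (n - 1) = 0 by omega]
    rw [List.getD_eq_getElem?_getD, List.getD_eq_getElem?_getD, List.getElem?_drop]
    rfl
  have e3 : (invRev (u.drop n) ++ v.drop n).getD n (0, false) = v.getD n (0, false) := by
    rw [List.getD_eq_getElem?_getD, List.getElem?_append_right (by rw [hl1]), hl1, Nat.sub_self]
    rw [List.getD_eq_getElem?_getD, List.getElem?_drop]
    rfl
  rw [e2, e3, il_il] at h5
  rw [hg (n - 1) (by omega)] at h4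
  omega

theorem turn_tn {D : ℕ} (hD : 2 ≤ D) : Turn ds Tn D :=
  ⟨tn_one hD, tn_two hD, tn_three hD⟩

/-- invariance -/
theorem ds_inv (γ : FreeGroup ℕ) (p q : FreeGroup ℕ × ℕ) :
    ds (γ * p.1, p.2) (γ * q.1, q.2) = ds p q := by
  unfold ds
  congr 1
  show (γ * p.1)⁻¹ * (γ * q.1) = _
  group

theorem tn_inv (γ : FreeGroup ℕ) (p q : FreeGroup ℕ × ℕ) :
    Tn (γ * p.1, p.2) (γ * q.1, q.2) ↔ Tn p q := by
  unfold Tn
  have : (γ * p.1, p.2).1⁻¹ * (γ * q.1, q.2).1 = p.1⁻¹ * q.1 := by
    show (γ * p.1)⁻¹ * (γ * q.1) = _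
    group
  rw [this]

/-- the elements of norm one -/
theorem norm_eq_one {g : FreeGroup ℕ} (h : FreeGroup.norm g = 1) :
    ∃ j, g = FreeGroup.of j ∨ g = (FreeGroup.of j)⁻¹ := by
  unfold FreeGroup.norm at h
  obtain ⟨⟨j, b⟩, hl⟩ := List.length_eq_one_iff.1 h
  refine ⟨j, ?_⟩
  have h1 : g = mk [(j, b)] := by rw [← hl, mk_toWord]
  cases b
  · right
    rw [h1]
    rfl
  · left
    rw [h1]
    rfl

/-- there are no triangles -/
theorem no_tri {p q z : FreeGroup ℕ × ℕ} (h1 : ds p q = 1) (h2 : ds q z = 1) :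
    ds p z ≠ 1 := by
  intro h3
  have := ds_quot p q z
  omega

end Pool.Agent.H2.MM
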